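import Mathlib

/-!
# Exchanging the last two factors of a tensor product
-/

set_option autoImplicit false
set_option linter.unusedSectionVars false

open CategoryTheory Limits MonoidalCategory

namespace Pool.Agent.Y112.KD

universe v u

section

variable {C : Type u} [Category.{v} C] [MonoidalCategory C] [SymmetricCategory C]

/-- The exchange of the last two factors. -/
def sw (Q X : C) : (Q ⊗ X) ⊗ X ⟶ (Q ⊗ X) ⊗ X :=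
  (α_ Q X X).hom ≫ Q ◁ (β_ X X).hom ≫ (α_ Q X X).inv

lemma sw_sw (Q X : C) : sw Q X ≫ sw Q X = 𝟙 _ := by
  simp [sw, ← MonoidalCategory.whiskerLeft_comp_assoc]

lemma braid (Q X : C) : sw (Q ⊗ X) X ≫ (sw Q X ▷ X) ≫ sw (Q ⊗ X) X =
    (sw Q X ▷ X) ≫ sw (Q ⊗ X) X ≫ (sw Q X ▷ X) := by
  have h1 := BraidedCategory.yang_baxter' X X X
  have e1 : sw (Q ⊗ X) X = 𝟙 (((Q ⊗ X) ⊗ X) ⊗ X) ⊗≫ Q ◁ (X ◁ (β_ X X).hom) ⊗≫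
      𝟙 (((Q ⊗ X) ⊗ X) ⊗ X) := by
    rw [sw]
    monoidal
  have e2 : sw Q X ▷ X = 𝟙 (((Q ⊗ X) ⊗ X) ⊗ X) ⊗≫ Q ◁ ((β_ X X).hom ▷ X) ⊗≫
      𝟙 (((Q ⊗ X) ⊗ X) ⊗ X) := by
    rw [sw]
    monoidal
  rw [e1, e2]
  calc _ = 𝟙 (((Q ⊗ X) ⊗ X) ⊗ X) ⊗≫ Q ◁ (𝟙 ((X ⊗ X) ⊗ X) ⊗≫ (X ◁ (β_ X X).hom ⊗≫
      (β_ X X).hom ▷ X ⊗≫ X ◁ (β_ X X).hom) ⊗≫ 𝟙 ((X ⊗ X) ⊗ X)) ⊗≫
      𝟙 (((Q ⊗ X) ⊗ X) ⊗ X) := by monoidal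
    _ = 𝟙 (((Q ⊗ X) ⊗ X) ⊗ X) ⊗≫ Q ◁ ((β_ X X).hom ▷ X ⊗≫ X ◁ (β_ X X).hom ⊗≫
      (β_ X X).hom ▷ X) ⊗≫ 𝟙 (((Q ⊗ X) ⊗ X) ⊗ X) := by
      rw [h1]
    _ = _ := by monoidal

/-- The exchange is natural. -/
lemma sw_nat {Q Q' X Y : C} (z : Q ⟶ Q') (p q : X ⟶ Y) :
    ((z ⊗ₘ p) ⊗ₘ q) ≫ sw Q' Y = sw Q X ≫ ((z ⊗ₘ q) ⊗ₘ p) := by
  have h1 : (z ⊗ₘ (p ⊗ₘ q)) ≫ Q' ◁ (β_ Y Y).hom = Q ◁ (β_ X X).hom ≫ (z ⊗ₘ (q ⊗ₘ p)) := by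
    rw [← id_tensorHom, ← id_tensorHom, tensorHom_comp_tensorHom, tensorHom_comp_tensorHom,
      BraidedCategory.braiding_naturality, Category.id_comp, Category.comp_id]
  simp only [sw, associator_naturality_assoc, Category.assoc]
  rw [reassoc_of% h1, associator_inv_naturality]

lemma sw_nat_left {Q Q' X : C} (z : Q ⟶ Q') : (z ▷ X) ▷ X ≫ sw Q' X = sw Q X ≫ (z ▷ X) ▷ X := by
  have := sw_nat z (𝟙 X) (𝟙 X)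
  simpa using this

lemma sw_nat_last (Q : C) {X : C} (q : X ⟶ X) : (Q ⊗ X) ◁ q ≫ sw Q X = sw Q X ≫ (Q ◁ q) ▷ X := by
  have := sw_nat (𝟙 Q) (𝟙 X) q
  simpa using this

end

end Pool.Agent.Y112.KD
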