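import Pool.Agent.Y112.KD.Ring
import Pool.Agent.Y112.KD.Swap

/-!
# Symmetrizers and antisymmetrizers of tensor powers
-/

set_option autoImplicit false
set_option linter.unusedSectionVars false

open CategoryTheory Limits MonoidalCategory

namespace Pool.Agent.Y112.KD

universe v u

/-- The tensor powers `((𝟙 ⊗ X) ⊗ X) ⊗ ⋯ ⊗ X`. -/
@[reducible] def tp {C : Type u} [Category.{v} C] [MonoidalCategory C] (X : C) : ℕ → C
  | 0 => 𝟙_ C
  | n + 1 => tp X n ⊗ X

section

variable {C : Type u} [Category.{v} C] [MonoidalCategory C] [SymmetricCategory C]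

/-- The exchanges of two neighbouring factors of the tensor power `X ^ n`. -/
inductive IsSwap (X : C) : ∀ n : ℕ, (tp X n ⟶ tp X n) → Prop
  | last (n : ℕ) : IsSwap X (n + 2) (sw (tp X n) X)
  | lift (n : ℕ) (s : tp X n ⟶ tp X n) : IsSwap X n s → IsSwap X (n + 1) (s ▷ X)

variable [Preadditive C] [Linear ℚ C]

/-- The symmetrizer (for `η = 1`) and the antisymmetrizer (for `η = -1`). -/
noncomputable def asym (η : ℚ) (X : C) : ∀ n : ℕ, (tp X n ⟶ tp X n)
  | 0 => 𝟙 _
  | 1 => 𝟙 _
  | n + 2 => (((n + 1 : ℕ) : ℚ) + 1)⁻¹ • (asym η X (n + 1) ▷ X +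
      (η * ((n + 1 : ℕ) : ℚ)) • ((asym η X (n + 1) ▷ X) ≫ sw (tp X n) X ≫
        (asym η X (n + 1) ▷ X)))

lemma asym_zero (η : ℚ) (X : C) : asym η X 0 = 𝟙 _ := rfl

lemma asym_one (η : ℚ) (X : C) : asym η X 1 = 𝟙 _ := rfl

lemma asym_succ (η : ℚ) (X : C) (n : ℕ) : asym η X (n + 2) =
    (((n + 1 : ℕ) : ℚ) + 1)⁻¹ • (asym η X (n + 1) ▷ X +
      (η * ((n + 1 : ℕ) : ℚ)) • ((asym η X (n + 1) ▷ X) ≫ sw (tp X n) X ≫
        (asym η X (n + 1) ▷ X))) := rfl

variable [MonoidalPreadditive C] [MonoidalLinear ℚ C]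

lemma asym_main {η : ℚ} (hη : η * η = 1) (X : C) (n : ℕ) :
    asym η X (n + 1) ≫ asym η X (n + 1) = asym η X (n + 1) ∧
    asym η X (n + 2) ≫ asym η X (n + 2) = asym η X (n + 2) ∧
    sw (tp X n) X ≫ asym η X (n + 2) = η • asym η X (n + 2) ∧
    asym η X (n + 2) ≫ sw (tp X n) X = η • asym η X (n + 2) := by
  induction n with
  | zero =>
    have h1 : asym η X 2 = (2 : ℚ)⁻¹ • (𝟙 _ + η • sw (tp X 0) X) := by
      rw [asym_succ, asym_one]
      simp only [id_whiskerRight, Category.id_comp, Category.comp_id]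
      norm_num
    have h2 : sw (tp X 0) X ≫ (𝟙 _ + η • sw (tp X 0) X) = η • (𝟙 _ + η • sw (tp X 0) X) := by
      rw [Preadditive.comp_add, Linear.comp_smul, sw_sw, Category.comp_id, smul_add, smul_smul, hη,
        one_smul, add_comm]
    have h3 : (𝟙 _ + η • sw (tp X 0) X) ≫ sw (tp X 0) X = η • (𝟙 _ + η • sw (tp X 0) X) := by
      rw [Preadditive.add_comp, Linear.smul_comp, sw_sw, Category.id_comp, smul_add, smul_smul, hη,
        one_smul, add_comm]
    refine ⟨by simp [asym_one], ?_, ?_, ?_⟩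
    · rw [h1, Linear.smul_comp, Linear.comp_smul, Preadditive.add_comp, Category.id_comp,
        Linear.smul_comp, h2, smul_smul, smul_smul, hη, one_smul, ← two_smul ℚ, smul_smul]
      norm_num
    · rw [h1, Linear.comp_smul, h2, smul_comm]
    · rw [h1, Linear.smul_comp, h3, smul_comm]
  | succ n ih =>
    obtain ⟨h0, h1, h2, h3⟩ := ih
    refine ⟨h1, ?_⟩
    have hm : ((n + 2 : ℕ) : ℚ) ≠ 0 := by positivity
    have key := step (R := End (tp X (n + 3))) (c := (asym η X (n + 1) ▷ X) ▷ X)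
      (t := (sw (tp X n) X) ▷ X) (s := sw (tp X (n + 1)) X) (a := asym η X (n + 2) ▷ X)
      (η := η) (m := n + 2) hη hm ?_ ?_ ?_ ?_ ?_ ?_ ?_ ?_
    · obtain ⟨k1, k2, k3⟩ := key
      simp only [End.mul_def, Category.assoc] at k1 k2 k3
      exact ⟨k1, k3, k2⟩
    · rw [End.mul_def, ← comp_whiskerRight, ← comp_whiskerRight, h0]
    · rw [End.mul_def, End.mul_def]
      exact sw_nat_left _
    · exact sw_sw _ _
    · simp only [End.mul_def]
      exact (braid _ _).symm
    · rw [End.mul_def, ← comp_whiskerRight, h1]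
    · rw [End.mul_def, ← comp_whiskerRight, h3, MonoidalLinear.smul_whiskerRight]
    · rw [End.mul_def, ← comp_whiskerRight, h2, MonoidalLinear.smul_whiskerRight]
    · rw [asym_succ, MonoidalLinear.smul_whiskerRight, MonoidalPreadditive.add_whiskerRight,
        MonoidalLinear.smul_whiskerRight, comp_whiskerRight, comp_whiskerRight, smul_smul]
      have e1 : ((n + 2 : ℕ) : ℚ) * (((n + 1 : ℕ) : ℚ) + 1)⁻¹ = 1 := by
        push_cast
        field_simp
        ring
      have e2 : η * ((n + 2 : ℕ) - 1 : ℚ) = η * ((n + 1 : ℕ) : ℚ) := by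
        push_cast
        ring
      rw [e1, one_smul, e2]
      simp only [End.mul_def, Category.assoc]

/-- The smaller (anti)symmetrizer is absorbed. -/
lemma absorb {η : ℚ} (hη : η * η = 1) (X : C) (n : ℕ) :
    (asym η X n ▷ X) ≫ asym η X (n + 1) = asym η X (n + 1) ∧
    asym η X (n + 1) ≫ (asym η X n ▷ X) = asym η X (n + 1) := by
  rcases n with - | n
  · simp [asym_zero, asym_one]
  · obtain ⟨h0, -⟩ := asym_main hη X n
    have h1 : asym η X (n + 1) ▷ X ≫ asym η X (n + 1) ▷ X = asym η X (n + 1) ▷ X := by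
      rw [← comp_whiskerRight, h0]
    rw [asym_succ]
    constructor
    · rw [Linear.comp_smul, Preadditive.comp_add, Linear.comp_smul, h1, reassoc_of% h1]
    · rw [Linear.smul_comp, Preadditive.add_comp, Linear.smul_comp, Category.assoc,
        Category.assoc, h1]

lemma asym_idem {η : ℚ} (hη : η * η = 1) (X : C) (n : ℕ) :
    asym η X n ≫ asym η X n = asym η X n := by
  rcases n with - | n
  · simp [asym_zero]
  · exact (asym_main hη X n).1

/-- The (anti)symmetrizer is (anti)symmetric. -/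
lemma swap_asym {η : ℚ} (hη : η * η = 1) (X : C) {n : ℕ} {s : tp X n ⟶ tp X n}
    (hs : IsSwap X n s) : s ≫ asym η X n = η • asym η X n ∧ asym η X n ≫ s = η • asym η X n := by
  induction hs with
  | last n => exact (asym_main hη X n).2.2
  | lift n s hs ih =>
    obtain ⟨h1, h2⟩ := absorb hη X n
    constructor
    · rw [← h1, ← Category.assoc, ← comp_whiskerRight, ih.1, MonoidalLinear.smul_whiskerRight,
        Linear.smul_comp]
    · rw [← h2, Category.assoc, ← comp_whiskerRight, ih.2, MonoidalLinear.smul_whiskerRight,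
        Linear.comp_smul]

/-- The tensor powers of a morphism. -/
def tpm {X Y : C} (f : X ⟶ Y) : ∀ n : ℕ, (tp X n ⟶ tp Y n)
  | 0 => 𝟙 _
  | n + 1 => tpm f n ⊗ₘ f

/-- The (anti)symmetrizer is natural. -/
lemma asym_nat {η : ℚ} {X Y : C} (f : X ⟶ Y) (n : ℕ) :
    tpm f n ≫ asym η Y n = asym η X n ≫ tpm f n := by
  induction n with
  | zero => simp [asym_zero]
  | succ n ih =>
    rcases n with - | n
    · simp [asym_one]
    · have h1 : tpm f (n + 2) ≫ asym η Y (n + 1) ▷ Y = asym η X (n + 1) ▷ X ≫ tpm f (n + 2) := by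
        have e1 : tpm f (n + 2) = tpm f (n + 1) ⊗ₘ f := rfl
        rw [e1, ← tensorHom_id, ← tensorHom_id, tensorHom_comp_tensorHom,
          tensorHom_comp_tensorHom, ih, Category.id_comp, Category.comp_id]
      have h2 : tpm f (n + 2) ≫ sw (tp Y n) Y = sw (tp X n) X ≫ tpm f (n + 2) := sw_nat _ _ _
      rw [asym_succ, asym_succ, Linear.comp_smul, Preadditive.comp_add, Linear.comp_smul,
        Linear.smul_comp, Preadditive.add_comp, Linear.smul_comp, h1, reassoc_of% h1,
        reassoc_of% h2, h1]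
      simp only [Category.assoc]

lemma asym_whisker_comp {η : ℚ} (hη : η * η = 1) {X : C} (n : ℕ) : ∀ {Y Z : C}
    (h : tp X n ⊗ Y ⟶ Z), (∀ s, IsSwap X n s → (s ▷ Y) ≫ h = η • h) →
    (asym η X n ▷ Y) ≫ h = h := by
  induction n with
  | zero =>
    intro Y Z h _
    simp [asym_zero]
  | succ n ih =>
    intro Y Z h hh
    rcases n with - | n
    · simp [asym_one]
    · have h1 : ((asym η X (n + 1) ▷ X) ▷ Y) ≫ h = h := by
        have h2 := ih ((α_ (tp X (n + 1)) X Y).inv ≫ h) (fun s hs => by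
          rw [associator_inv_naturality_left_assoc, hh _ (IsSwap.lift _ _ hs), Linear.comp_smul])
        rw [associator_inv_naturality_left_assoc] at h2
        exact (cancel_epi _).mp h2
      have h3 : (sw (tp X n) X ▷ Y) ≫ h = η • h := hh _ (IsSwap.last n)
      have hn : ((n + 1 : ℕ) : ℚ) + 1 ≠ 0 := by positivity
      rw [asym_succ, MonoidalLinear.smul_whiskerRight, MonoidalPreadditive.add_whiskerRight,
        MonoidalLinear.smul_whiskerRight, comp_whiskerRight, comp_whiskerRight, Linear.smul_comp,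
        Preadditive.add_comp, Linear.smul_comp, Category.assoc, Category.assoc, h1, h3,
        Linear.comp_smul, h1, smul_smul]
      have e1 : η * ((n + 1 : ℕ) : ℚ) * η = ((n + 1 : ℕ) : ℚ) := by
        linear_combination ((n + 1 : ℕ) : ℚ) * hη
      rw [e1]
      have e2 : h + ((n + 1 : ℕ) : ℚ) • h = (((n + 1 : ℕ) : ℚ) + 1) • h := by module
      rw [e2, smul_smul, inv_mul_cancel₀ hn, one_smul]

/-- (Anti)symmetric morphisms factor through the (anti)symmetrizer. -/
lemma asym_comp {η : ℚ} (hη : η * η = 1) {X Z : C} {n : ℕ} (h : tp X n ⟶ Z)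
    (hh : ∀ s, IsSwap X n s → s ≫ h = η • h) : asym η X n ≫ h = h := by
  have h1 := asym_whisker_comp hη n (Y := 𝟙_ C) ((ρ_ (tp X n)).hom ≫ h) (fun s hs => by
    rw [rightUnitor_naturality_assoc, hh s hs, Linear.comp_smul])
  rw [rightUnitor_naturality_assoc] at h1
  exact (cancel_epi _).mp h1

/-- The object `X` is killed by the `n`-th exterior power (`η = -1`) or by the `n`-th symmetric
power (`η = 1`): all (anti)symmetric morphisms vanish. -/
def Kills (η : ℚ) (X : C) (n : ℕ) : Prop :=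
  ∀ (Z : C) (h : tp X n ⟶ Z), (∀ s, IsSwap X n s → s ≫ h = η • h) → h = 0

lemma kills_iff {η : ℚ} (hη : η * η = 1) (X : C) (n : ℕ) : Kills η X n ↔ asym η X n = 0 := by
  constructor
  · exact fun h => h _ _ (fun s hs => (swap_asym hη X hs).1)
  · intro h Z g hg
    rw [← asym_comp hη g hg, h, zero_comp]

end

end Pool.Agent.Y112.KD
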