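import Pool.Agent.Y112.KD.Asym
import Pool.Agent.Y112.SR.Main
import Pool.Agent.TH829.Kim.Alg2

/-!
# Contractions of (anti)symmetrized tensor products of endomorphisms
-/

set_option autoImplicit false
set_option linter.unusedSectionVars false
set_option linter.unusedSimpArgs false

open CategoryTheory Limits MonoidalCategory
open Pool.Agent.Y112.SR (ptr ptr_symm)
open Pool.Agent.Y116.MT (tr)

namespace Pool.Agent.Y112.KD

universe v u

section

variable {C : Type u} [Category.{v} C] [MonoidalCategory C] [SymmetricCategory C]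
  [RightRigidCategory C]

lemma ptr_comp {M N : C} (a b : M ⟶ M) (x : M ⊗ N ⟶ M ⊗ N) :
    ptr (a ▷ N ≫ x ≫ b ▷ N) = a ≫ ptr x ≫ b := by
  simp only [ptr, comp_whiskerRight, Category.assoc]
  rw [associator_naturality_left_assoc, ← whisker_exchange_assoc, rightUnitor_naturality,
    ← associator_inv_naturality_left_assoc, whisker_exchange_assoc,
    ← rightUnitor_inv_naturality_assoc]

lemma ptr_whiskerLeft {M N : C} (q : N ⟶ N) :
    ptr (M ◁ q) = (ρ_ M).inv ≫ M ◁ tr q ≫ (ρ_ M).hom := by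
  simp only [ptr, tr, MonoidalCategory.whiskerLeft_comp, Category.assoc]
  rw [whisker_assoc_assoc]
  simp

lemma ptr_assoc {Q M N : C} (y : M ⊗ N ⟶ M ⊗ N) :
    ptr ((α_ Q M N).hom ≫ Q ◁ y ≫ (α_ Q M N).inv) = Q ◁ ptr y := by
  simp only [ptr]
  monoidal

lemma ptr_sw (Q X : C) : ptr (sw Q X) = 𝟙 _ := by
  rw [sw, ptr_assoc, ptr_symm]
  simp

end

section

variable {C : Type u} [Category.{v} C] [MonoidalCategory C] [SymmetricCategory C]
  [Preadditive C] [Linear ℚ C] [MonoidalPreadditive C] [MonoidalLinear ℚ C]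

/-- The tensor product of the endomorphisms `p (n - 1), …, p 0`. -/
def Dn {X : C} : ∀ (n : ℕ), (Fin n → (X ⟶ X)) → (tp X n ⟶ tp X n)
  | 0, _ => 𝟙 _
  | n + 1, p => Dn n (fun i => p i.succ) ⊗ₘ p 0

/-- The sum of the moves of a factor to the last place. -/
def Tn (η : ℚ) (X : C) : ∀ (n : ℕ), (tp X (n + 1) ⟶ tp X (n + 1))
  | 0 => 𝟙 _
  | n + 1 => 𝟙 _ + η • ((Tn η X n ▷ X) ≫ sw (tp X n) X)

/-- The derivation `∑ 1 ⊗ ⋯ ⊗ q ⊗ ⋯ ⊗ 1`. -/
def Ln {X : C} (q : X ⟶ X) : ∀ (n : ℕ), (tp X n ⟶ tp X n)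
  | 0 => 0
  | n + 1 => Ln q n ▷ X + tp X n ◁ q

lemma Tn_succ (η : ℚ) (X : C) (n : ℕ) :
    Tn η X (n + 1) = 𝟙 _ + η • ((Tn η X n ▷ X) ≫ sw (tp X n) X) := rfl

lemma Ln_succ {X : C} (q : X ⟶ X) (n : ℕ) : Ln q (n + 1) = Ln q n ▷ X + tp X n ◁ q := rfl

lemma Dn_succ {X : C} (n : ℕ) (p : Fin (n + 1) → (X ⟶ X)) :
    Dn (n + 1) p = Dn n (fun i => p i.succ) ⊗ₘ p 0 := rfl

lemma Tn_asym {η : ℚ} (hη : η * η = 1) (X : C) (n : ℕ) :
    ((n + 1 : ℕ) : ℚ) • asym η X (n + 1) = Tn η X n ≫ (asym η X n ▷ X) := by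
  induction n with
  | zero => simp [asym_one, asym_zero, Tn]
  | succ n ih =>
    have hn : ((n + 1 : ℕ) : ℚ) + 1 ≠ 0 := by positivity
    have e1 : ((n + 1 + 1 : ℕ) : ℚ) * (((n + 1 : ℕ) : ℚ) + 1)⁻¹ = 1 := by
      rw [Nat.cast_succ (n + 1)]
      exact mul_inv_cancel₀ hn
    have e2 : ((n + 1 : ℕ) : ℚ) • ((asym η X (n + 1) ▷ X) ≫ sw (tp X n) X ≫
        (asym η X (n + 1) ▷ X)) =
        (Tn η X n ▷ X) ≫ sw (tp X n) X ≫ (asym η X (n + 1) ▷ X) := by
      rw [← Linear.smul_comp, ← MonoidalLinear.smul_whiskerRight, ih, comp_whiskerRight,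
        Category.assoc, ← Category.assoc (asym η X n ▷ X ▷ X), sw_nat_left, Category.assoc,
        ← comp_whiskerRight, (absorb hη X n).1]
    rw [asym_succ, smul_smul, e1, one_smul, mul_smul, e2, Tn_succ, Preadditive.add_comp,
      Category.id_comp, Linear.smul_comp, Category.assoc]

lemma Tn_Ln {η : ℚ} (hη : η * η = 1) {X : C} (q : X ⟶ X) (n : ℕ) :
    Tn η X n ≫ (tp X n ◁ q) ≫ asym η X (n + 1) = Ln q (n + 1) ≫ asym η X (n + 1) := by
  induction n with
  | zero => simp [Tn, Ln]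
  | succ n ih =>
    have h1 : sw (tp X n) X ≫ (tp X (n + 1) ◁ q) = ((tp X n ◁ q) ▷ X) ≫ sw (tp X n) X := by
      have h2 := congrArg (fun z => sw (tp X n) X ≫ z ≫ sw (tp X n) X) (sw_nat_last (tp X n) q)
      simp only [Category.assoc, sw_sw, Category.comp_id] at h2
      rw [h2, ← Category.assoc, sw_sw, Category.id_comp]
    have h3 := (swap_asym hη X (IsSwap.last n)).1
    have h4 := (absorb hη X (n + 1)).1
    rw [Tn_succ, Preadditive.add_comp, Category.id_comp, Linear.smul_comp, Category.assoc,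
      reassoc_of% h1, h3, Linear.comp_smul, Linear.comp_smul, smul_smul, hη, one_smul, Ln_succ,
      Preadditive.add_comp]
    refine Eq.trans ?_ (add_comm _ _)
    congr 1
    rw [← h4, ← comp_whiskerRight_assoc, ← comp_whiskerRight_assoc, Category.assoc, ih,
      comp_whiskerRight_assoc]

lemma Dn_Ln {X : C} (q : X ⟶ X) (n : ℕ) (p : Fin n → (X ⟶ X)) :
    Dn n p ≫ Ln q n = ∑ i, Dn n (Function.update p i (p i ≫ q)) := by
  induction n with
  | zero => simp [Ln]
  | succ n ih =>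
    rw [Ln_succ, Preadditive.comp_add, Dn_succ, Fin.sum_univ_succ]
    refine (add_comm _ _).trans ?_
    congr 1
    · rw [Dn_succ, ← id_tensorHom, tensorHom_comp_tensorHom, Category.comp_id,
        Function.update_self]
      congr 2
    · rw [← tensorHom_id, tensorHom_comp_tensorHom, Category.comp_id, ih]
      have h1 : ∀ j : Fin n, Dn (n + 1) (Function.update p j.succ (p j.succ ≫ q)) =
          Dn n (Function.update (fun i => p i.succ) j (p j.succ ≫ q)) ⊗ₘ p 0 := by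
        intro j
        have h2 : (fun i : Fin n => Function.update p j.succ (p j.succ ≫ q) i.succ) =
            Function.update (fun i => p i.succ) j (p j.succ ≫ q) := by
          funext i
          by_cases hi : i = j
          · subst hi
            simp
          · rw [Function.update_of_ne (by simpa using hi), Function.update_of_ne hi]
        have h3 : Function.update p j.succ (p j.succ ≫ q) 0 = p 0 :=
          Function.update_of_ne (Fin.succ_ne_zero j).symm _ _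
        rw [Dn_succ, h2, h3]
      simp only [h1]
      exact sum_tensor _ _ _

lemma Dn_update_self {X : C} {e : X ⟶ X} (n : ℕ) (p : Fin n → (X ⟶ X)) (h : ∀ i, p i ≫ e = p i) :
    Dn n p ≫ tpm e n = Dn n p := by
  induction n with
  | zero => simp [Dn, tpm]
  | succ n ih =>
    have e1 : tpm e (n + 1) = tpm e n ⊗ₘ e := rfl
    rw [Dn_succ, e1, tensorHom_comp_tensorHom, ih _ (fun i => h i.succ), h]

lemma tpm_comp {X Y Z : C} (f : X ⟶ Y) (g : Y ⟶ Z) (n : ℕ) :
    tpm f n ≫ tpm g n = tpm (f ≫ g) n := by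
  induction n with
  | zero => simp [tpm]
  | succ n ih =>
    have e1 : tpm f (n + 1) = tpm f n ⊗ₘ f := rfl
    have e2 : tpm g (n + 1) = tpm g n ⊗ₘ g := rfl
    have e3 : tpm (f ≫ g) (n + 1) = tpm (f ≫ g) n ⊗ₘ (f ≫ g) := rfl
    rw [e1, e2, e3, tensorHom_comp_tensorHom, ih]

/-- If a retract is killed then the (anti)symmetrizations of its endomorphisms vanish. -/
lemma Dn_asym_zero {η : ℚ} {X E : C} (i : E ⟶ X) (r : X ⟶ E) (n : ℕ) (hE : asym η E n = 0)
    (p : Fin n → (X ⟶ X)) (h : ∀ j, p j ≫ (r ≫ i) = p j) : Dn n p ≫ asym η X n = 0 := by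
  rw [← Dn_update_self n p h, ← tpm_comp, Category.assoc, Category.assoc, asym_nat, hE]
  simp

lemma tpm_id (X : C) (n : ℕ) : tpm (𝟙 X) n = 𝟙 _ := by
  induction n with
  | zero => rfl
  | succ n ih =>
    have e1 : tpm (𝟙 X) (n + 1) = tpm (𝟙 X) n ⊗ₘ 𝟙 X := rfl
    rw [e1, ih, id_tensorHom_id]

/-- A retract of a killed object is killed. -/
lemma kills_retract {η : ℚ} {X E : C} (i : E ⟶ X) (r : X ⟶ E) (hir : i ≫ r = 𝟙 _) {n : ℕ}
    (hX : asym η X n = 0) : asym η E n = 0 := by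
  have h1 : tpm i n ≫ tpm r n = 𝟙 _ := by rw [tpm_comp, hir, tpm_id]
  rw [← Category.comp_id (asym η E n), ← h1, ← Category.assoc, ← asym_nat, hX]
  simp

variable [RightRigidCategory C]

/-- The partial trace as a linear map. -/
def ptrL (M N : C) : (M ⊗ N ⟶ M ⊗ N) →ₗ[ℚ] (M ⟶ M) where
  toFun x := ptr x
  map_add' x y := by
    simp only [ptr, MonoidalPreadditive.add_whiskerRight, Preadditive.comp_add,
      Preadditive.add_comp]
  map_smul' c x := by
    simp only [ptr, MonoidalLinear.smul_whiskerRight, Linear.comp_smul, Linear.smul_comp,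
      RingHom.id_apply]

lemma ptr_add {M N : C} (x y : M ⊗ N ⟶ M ⊗ N) : ptr (x + y) = ptr x + ptr y :=
  (ptrL M N).map_add x y

lemma ptr_smul {M N : C} (c : ℚ) (x : M ⊗ N ⟶ M ⊗ N) : ptr (c • x) = c • ptr x :=
  (ptrL M N).map_smul c x

lemma ptr_comp_right {M N : C} (b : M ⟶ M) (x : M ⊗ N ⟶ M ⊗ N) :
    ptr (x ≫ b ▷ N) = ptr x ≫ b := by
  have := ptr_comp (𝟙 M) b x
  simpa using this

lemma ptr_comp_left {M N : C} (a : M ⟶ M) (x : M ⊗ N ⟶ M ⊗ N) :
    ptr (a ▷ N ≫ x) = a ≫ ptr x := by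
  have := ptr_comp a (𝟙 M) x
  simpa using this

lemma ptr_tensor {M N : C} (a : M ⟶ M) (q : N ⟶ N) (t : ℚ) (ht : tr q = t • 𝟙 _) :
    ptr (a ⊗ₘ q) = t • a := by
  rw [MonoidalCategory.tensorHom_def, ptr_comp_left, ptr_whiskerLeft, ht,
    MonoidalLinear.whiskerLeft_smul]
  simp

/-- The contraction of the last factor. -/
lemma ptr_Dn {η : ℚ} (hη : η * η = 1) {X : C} (n : ℕ) (p : Fin (n + 1) → (X ⟶ X)) (t : ℚ)
    (ht : tr (p 0) = t • 𝟙 _) :
    ptr (Dn (n + 1) p ≫ (((n + 1 : ℕ) : ℚ) • asym η X (n + 1))) =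
      t • (Dn n (fun i => p i.succ) ≫ asym η X n) +
      η • ∑ i, Dn n (Function.update (fun i => p i.succ) i (p i.succ ≫ p 0)) ≫ asym η X n := by
  rw [Tn_asym hη, Dn_succ]
  rcases n with - | n
  · simp only [Tn, Category.id_comp, ptr_comp_right]
    rw [ptr_tensor _ _ t ht]
    simp
  · have h1 : (Dn (n + 1) (fun i => p i.succ) ⊗ₘ p 0) ≫ Tn η X (n + 1) =
        (Dn (n + 1) (fun i => p i.succ) ⊗ₘ p 0) +
        η • (((Dn (n + 1) (fun i => p i.succ) ≫ Tn η X n) ▷ X) ≫ sw (tp X n) X ≫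
          ((tp X n ◁ p 0) ▷ X)) := by
      rw [Tn_succ, Preadditive.comp_add, Category.comp_id, Linear.comp_smul, ← sw_nat_last,
        MonoidalCategory.tensorHom_def, comp_whiskerRight, Category.assoc, Category.assoc,
        whisker_exchange_assoc]
    rw [← Category.assoc, h1, Preadditive.add_comp, ptr_add, ptr_comp_right, ptr_tensor _ _ t ht,
      ptr_comp_right, ptr_smul, ptr_comp, ptr_sw, Category.id_comp, Linear.smul_comp,
      Linear.smul_comp]
    congr 2
    rw [Category.assoc, Category.assoc, Tn_Ln hη, ← Category.assoc, Dn_Ln, Preadditive.sum_comp]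

end

end Pool.Agent.Y112.KD
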