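import Pool.Agent.Y112.KD.Contr

/-!
# The trace and the equations of even and odd retracts
-/

set_option autoImplicit false
set_option linter.unusedSectionVars false
set_option linter.unusedSimpArgs false

open CategoryTheory Limits MonoidalCategory
open Pool.Agent.Y112.SR (ptr ptr_symm)
open Pool.Agent.Y116.MT (tr)
open Pool.Agent.TH829.Kim (K F K_succ F_succ Killed)

namespace Pool.Agent.Y112.KD

universe v u

section

variable {C : Type u} [Category.{v} C] [MonoidalCategory C] [SymmetricCategory C]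
  [Preadditive C] [Linear ℚ C] [MonoidalPreadditive C] [MonoidalLinear ℚ C]
  [RightRigidCategory C]

/-- The unit object has only rational scalars as endomorphisms and is not zero. -/
structure UnitQ (C : Type u) [Category.{v} C] [MonoidalCategory C] [Preadditive C]
    [Linear ℚ C] : Prop where
  ex : ∀ c : 𝟙_ C ⟶ 𝟙_ C, ∃ q : ℚ, c = q • 𝟙 _
  ne : 𝟙 (𝟙_ C) ≠ 0

lemma UnitQ.inj (hU : UnitQ C) {q q' : ℚ} (h : q • 𝟙 (𝟙_ C) = q' • 𝟙 (𝟙_ C)) : q = q' := by
  by_contra hne
  apply hU.ne
  have h1 : (q - q') • 𝟙 (𝟙_ C) = 0 := by rw [sub_smul, h, sub_self]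
  have h2 := congrArg (fun z => (q - q')⁻¹ • z) h1
  simpa [smul_smul, inv_mul_cancel₀ (sub_ne_zero.mpr hne)] using h2

lemma tr_add {X : C} (a b : X ⟶ X) : tr (a + b) = tr a + tr b := by
  simp only [tr, MonoidalPreadditive.add_whiskerRight, Preadditive.comp_add, Preadditive.add_comp]

lemma tr_smul {X : C} (c : ℚ) (a : X ⟶ X) : tr (c • a) = c • tr a := by
  simp only [tr, MonoidalLinear.smul_whiskerRight, Linear.comp_smul, Linear.smul_comp]

/-- The trace as a rational number. -/
noncomputable def trq (hU : UnitQ C) (X : C) : End X →ₗ[ℚ] ℚ where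
  toFun a := Classical.choose (hU.ex (tr (X := X) a))
  map_add' a b := by
    apply hU.inj
    rw [add_smul, ← Classical.choose_spec (hU.ex (tr (X := X) a)),
      ← Classical.choose_spec (hU.ex (tr (X := X) b)),
      ← Classical.choose_spec (hU.ex (tr (X := X) (a + b)))]
    exact tr_add (X := X) a b
  map_smul' c a := by
    apply hU.inj
    rw [RingHom.id_apply, smul_eq_mul, mul_smul, ← Classical.choose_spec (hU.ex (tr (X := X) a)),
      ← Classical.choose_spec (hU.ex (tr (X := X) (c • a)))]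
    exact tr_smul (X := X) c a

lemma trq_spec (hU : UnitQ C) {X : C} (a : End X) : tr (X := X) a = trq hU X a • 𝟙 _ :=
  Classical.choose_spec (hU.ex (tr (X := X) a))

/-- The (anti)symmetrization of a tensor product of endomorphisms. -/
noncomputable def gg (η : ℚ) {X : C} (n : ℕ) (p : Fin n → End X) : tp X n ⟶ tp X n :=
  (n.factorial : ℚ) • (Dn n (fun i => (p i : X ⟶ X)) ≫ asym η X n)

lemma ptr_gg (hU : UnitQ C) {η : ℚ} (hη : η * η = 1) {X : C} (n : ℕ) (p : Fin (n + 1) → End X) :
    ptrL (tp X n) X (gg η (n + 1) p) = trq hU X (p 0) • gg η n (fun i => p i.succ) +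
      η • ∑ i, gg η n (Function.update (fun i => p i.succ) i (p 0 * p i.succ)) := by
  have h1 : gg η (n + 1) p = (n.factorial : ℚ) • (Dn (n + 1) (fun i => (p i : X ⟶ X)) ≫
      (((n + 1 : ℕ) : ℚ) • asym η X (n + 1))) := by
    rw [gg, Linear.comp_smul, smul_smul, Nat.factorial_succ]
    push_cast
    ring_nf
  rw [h1, map_smul]
  have h2 := ptr_Dn hη n (fun i => (p i : X ⟶ X)) (trq hU X (p 0)) (trq_spec hU _)
  have h3 : ptrL (tp X n) X (Dn (n + 1) (fun i => (p i : X ⟶ X)) ≫
      (((n + 1 : ℕ) : ℚ) • asym η X (n + 1))) = ptr (Dn (n + 1) (fun i => (p i : X ⟶ X)) ≫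
      (((n + 1 : ℕ) : ℚ) • asym η X (n + 1))) := rfl
  rw [h3, h2, smul_add, smul_comm, smul_comm _ η, Finset.smul_sum]
  rfl

/-- The contraction of all factors but one. -/
noncomputable def cc (X : C) : ∀ n : ℕ, (tp X (n + 1) ⟶ tp X (n + 1)) →ₗ[ℚ] End X
  | 0 =>
    { toFun := fun x => (λ_ X).inv ≫ x ≫ (λ_ X).hom
      map_add' := fun x y => by
        rw [Preadditive.add_comp, Preadditive.comp_add]
      map_smul' := fun c x => by
        rw [Linear.smul_comp, Linear.comp_smul, RingHom.id_apply] }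
  | n + 1 => cc X n ∘ₗ ptrL (tp X (n + 1)) X

/-- The contraction of all factors. -/
noncomputable def ff (X : C) : ∀ n : ℕ, (tp X n ⟶ tp X n) →ₗ[ℚ] (𝟙_ C ⟶ 𝟙_ C)
  | 0 => LinearMap.id
  | n + 1 => ff X n ∘ₗ ptrL (tp X n) X

lemma cc_gg (hU : UnitQ C) {η : ℚ} (hη : η * η = 1) {X : C} (n : ℕ) (p : Fin (n + 1) → End X) :
    cc X n (gg η (n + 1) p) = K (trq hU X) η n p := by
  induction n with
  | zero =>
    simp [cc, gg, K, Dn, asym_one]
  | succ n ih =>
    rw [K_succ]
    change cc X n (ptrL (tp X (n + 1)) X (gg η (n + 2) p)) = _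
    rw [ptr_gg hU hη, map_add, map_smul, map_smul, map_sum, ih]
    simp only [ih]

lemma ff_gg (hU : UnitQ C) {η : ℚ} (hη : η * η = 1) {X : C} (n : ℕ) (p : Fin n → End X) :
    ff X n (gg η n p) = F (trq hU X) η n p • 𝟙 _ := by
  induction n with
  | zero =>
    simp [ff, gg, F, Dn, asym_zero]
  | succ n ih =>
    rw [F_succ]
    change ff X n (ptrL (tp X n) X (gg η (n + 1) p)) = _
    rw [ptr_gg hU hη, map_add, map_smul, map_smul, map_sum, ih]
    simp only [ih]
    rw [add_smul, mul_smul, mul_smul, Finset.sum_smul]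

/-- An even or odd retract satisfies the equations of an even or odd idempotent. -/
theorem killed (hU : UnitQ C) {η : ℚ} (hη : η * η = 1) {X E : C} (i : E ⟶ X) (r : X ⟶ E) (n : ℕ)
    (hE : asym η E (n + 1) = 0) (e : End X) (he : e = r ≫ i) : Killed (trq hU X) η e n := by
  have key : ∀ a : Fin (n + 1) → End X, (∀ j, e * a j = a j) → gg η (n + 1) a = 0 := by
    intro a ha
    have ha' : ∀ j, (a j : X ⟶ X) ≫ (r ≫ i) = a j := fun j => by
      rw [← he]
      exact ha j
    rw [gg, Dn_asym_zero i r (n + 1) hE _ ha', smul_zero]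
  constructor
  · intro a ha
    rw [← cc_gg hU hη, key a ha, map_zero]
  · intro a ha
    apply hU.inj
    rw [← ff_gg hU hη, key a ha, map_zero, zero_smul]

end

end Pool.Agent.Y112.KD
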