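import Pool.Agent.Y112.KD.Pure

/-!
# Kimura-finiteness descends along tensor products
-/

set_option autoImplicit false
set_option linter.unusedSectionVars false
set_option linter.unusedSimpArgs false
set_option backward.isDefEq.respectTransparency false
set_option backward.defeqAttrib.useBackward true

open CategoryTheory Limits MonoidalCategory
open Pool.Agent.Y112.SR
open Pool.Agent.Y116.MT (tr)
open Pool.Agent.TH829.Kim (K F F_succ InRad Killed isNilpotent_of_inRad exists_lift)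

namespace Pool.Agent.Y112.KD

universe v u w

section

variable {C : Type u} [Category.{v} C] [MonoidalCategory C] [SymmetricCategory C]
  [Preadditive C]

/-- The `n`-th exterior power of `X` is zero for some `n ≥ 1`: every alternating morphism defined on
the tensor power `X ^ n` is zero. -/
def IsEven (X : C) : Prop :=
  ∃ n : ℕ, 1 ≤ n ∧ ∀ (Z : C) (h : tp X n ⟶ Z), (∀ s, IsSwap X n s → s ≫ h = -h) → h = 0

/-- The `n`-th symmetric power of `X` is zero for some `n ≥ 1`: every symmetric morphism defined on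
the tensor power `X ^ n` is zero. -/
def IsOdd (X : C) : Prop :=
  ∃ n : ℕ, 1 ≤ n ∧ ∀ (Z : C) (h : tp X n ⟶ Z), (∀ s, IsSwap X n s → s ≫ h = h) → h = 0

/-- `M` is the direct sum of `A` and `B`. -/
def IsSum (M A B : C) : Prop :=
  ∃ (i : A ⟶ M) (r : M ⟶ A) (j : B ⟶ M) (s : M ⟶ B),
    i ≫ r = 𝟙 A ∧ j ≫ s = 𝟙 B ∧ r ≫ i + s ≫ j = 𝟙 M

/-- `M` is finite-dimensional in the sense of Kimura and O'Sullivan. -/
def KimuraFinite (M : C) : Prop := ∃ E O : C, IsSum M E O ∧ IsEven E ∧ IsOdd O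

end

section

variable {C : Type u} [Category.{v} C] [Preadditive C] [Linear ℚ C] [MonoidalCategory C]
  [MonoidalPreadditive C] [MonoidalLinear ℚ C] [SymmetricCategory C]

lemma isEven_iff (X : C) : IsEven X ↔ ∃ n : ℕ, 1 ≤ n ∧ asym (-1) X n = 0 := by
  have h : ∀ n, (∀ (Z : C) (h : tp X n ⟶ Z), (∀ s, IsSwap X n s → s ≫ h = -h) → h = 0) ↔
      asym (-1) X n = 0 := fun n => by
    rw [← kills_iff (by norm_num) X n, Kills]
    simp only [neg_smul, one_smul]
  simp only [IsEven, h]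

lemma isOdd_iff (X : C) : IsOdd X ↔ ∃ n : ℕ, 1 ≤ n ∧ asym 1 X n = 0 := by
  have h : ∀ n, (∀ (Z : C) (h : tp X n ⟶ Z), (∀ s, IsSwap X n s → s ≫ h = h) → h = 0) ↔
      asym 1 X n = 0 := fun n => by
    rw [← kills_iff (by norm_num) X n, Kills]
    simp only [one_smul]
  simp only [IsOdd, h]

variable [RightRigidCategory C] {K : Type w} [Field K] (R : SuperRealisation C K)

lemma inRad_of_H (hU : UnitQ C) {X : C} {x : End X} (h : R.H.map x = 0) :
    InRad (trq hU X) x := by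
  intro γ
  have hc := R_charZero R
  have h1 : ((trq hU X (x * γ) : ℚ) : K) = ((0 : ℚ) : K) := by
    have e1 := real_tr R hU (X := X) (x * γ)
    have e2 : R.H.map (x * γ : End X) = 0 := by
      rw [End.mul_def, Functor.map_comp, h, comp_zero]
    rw [e2, zero_comp, ModuleCat.hom_zero, map_zero] at e1
    simpa using e1
  exact_mod_cast h1

include R in
/-- Numerically trivial endomorphisms of Kimura-finite objects are nilpotent. -/
theorem nil_of_kimura (hU : UnitQ C) {P : C} (hP : KimuraFinite P) {x : End P}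
    (hx : InRad (trq hU P) x) : IsNilpotent x := by
  obtain ⟨E, O, ⟨i, r, j, s, h1, h2, h3⟩, hE, hO⟩ := hP
  obtain ⟨n, hn, hE⟩ := (isEven_iff E).mp hE
  obtain ⟨m, hm, hO⟩ := (isOdd_iff O).mp hO
  obtain ⟨n, rfl⟩ := Nat.exists_eq_add_of_le' hn
  obtain ⟨m, rfl⟩ := Nat.exists_eq_add_of_le' hm
  let f : End P := r ≫ i
  have hf : f * f = f := by
    change (r ≫ i) ≫ (r ≫ i) = r ≫ i
    rw [Category.assoc, reassoc_of% h1]
  have hf' : (1 - f : End P) = s ≫ j := by
    change 𝟙 P - r ≫ i = s ≫ j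
    rw [← h3]
    abel
  exact isNilpotent_of_inRad (R := End P) (fun a b => trq_comm' R hU b a) hf
    (killed hU (by norm_num) i r n hE f rfl) (killed hU (by norm_num) j s m hO _ hf') hx

lemma pow_retract {P Q : C} (i : Q ⟶ P) (r : P ⟶ Q) (hir : i ≫ r = 𝟙 _) (x : End Q) (y : End P)
    (hy : y = r ≫ (x : Q ⟶ Q) ≫ i) (k : ℕ) :
    ((y ^ (k + 1) : End P) : P ⟶ P) = r ≫ ((x ^ (k + 1) : End Q) : Q ⟶ Q) ≫ i := by
  induction k with
  | zero => simpa using hy
  | succ k ih =>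
    rw [pow_succ y (k + 1), End.mul_def, ih, pow_succ x (k + 1), End.mul_def, hy]
    simp only [Category.assoc]
    rw [reassoc_of% hir]

/-- A pure retract of a sum is a retract of the summand of the same parity. -/
lemma retract_aux {P Q E O : C} (hnil : ∀ x : End P, R.H.map x = 0 → IsNilpotent x)
    (i : Q ⟶ P) (r : P ⟶ Q) (hir : i ≫ r = 𝟙 _) (iE : E ⟶ P) (rE : P ⟶ E) (iO : O ⟶ P)
    (rO : P ⟶ O) (hsum : rE ≫ iE + rO ≫ iO = 𝟙 P) (d : K) (hd : d * d = 1)
    (hQ : R.par Q = d • 𝟙 _) (hO : R.par O = (-d) • 𝟙 _) :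
    ∃ (i' : Q ⟶ E) (r' : E ⟶ Q), i' ≫ r' = 𝟙 _ := by
  have hc := R_charZero R
  have h0 : R.H.map (i ≫ rO) = 0 := by
    have h1 := R.par_natural (i ≫ rO)
    rw [hQ, hO, Linear.comp_smul, Linear.smul_comp, Category.comp_id, Category.id_comp] at h1
    have h2 : (2 * d) • R.H.map (i ≫ rO) = 0 := by
      have : (2 * d) • R.H.map (i ≫ rO) = d • R.H.map (i ≫ rO) - (-d) • R.H.map (i ≫ rO) := by
        module
      rw [this, h1, sub_self]
    have hd' : (2 * d) ≠ 0 := mul_ne_zero two_ne_zero (fun h => by simp [h] at hd)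
    have h3 := congrArg (fun z => (2 * d)⁻¹ • z) h2
    simpa only [smul_smul, inv_mul_cancel₀ hd', one_smul, smul_zero] using h3
  let x : End Q := i ≫ rO ≫ iO ≫ r
  let y : End P := r ≫ (x : Q ⟶ Q) ≫ i
  have hy : R.H.map y = 0 := by
    have : (y : P ⟶ P) = r ≫ (i ≫ rO) ≫ iO ≫ r ≫ i := by
      simp only [y, x, Category.assoc]
    rw [this, Functor.map_comp, Functor.map_comp, h0, zero_comp, comp_zero]
  obtain ⟨k, hk⟩ := hnil y hy
  have hk' : (y ^ (k + 1) : End P) = 0 := by rw [pow_succ, hk, zero_mul]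
  have hx : (x ^ (k + 1) : End Q) = 0 := by
    have h1 := pow_retract i r hir x y rfl k
    rw [hk'] at h1
    have h2 : i ≫ (0 : P ⟶ P) ≫ r = ((x ^ (k + 1) : End Q) : Q ⟶ Q) := by
      have h3 : (0 : P ⟶ P) = r ≫ ((x ^ (k + 1) : End Q) : Q ⟶ Q) ≫ i := h1
      rw [h3]
      simp only [Category.assoc, hir, Category.comp_id]
      rw [reassoc_of% hir]
    rw [zero_comp, comp_zero] at h2
    exact h2.symm
  have hu : IsUnit (1 - x) := IsNilpotent.isUnit_one_sub ⟨k + 1, hx⟩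
  obtain ⟨v, hv⟩ := hu.exists_left_inv
  refine ⟨i ≫ rE, iE ≫ r ≫ (v : Q ⟶ Q), ?_⟩
  have h4 : (1 - x : End Q) = (i ≫ rE ≫ iE ≫ r : Q ⟶ Q) := by
    change 𝟙 Q - i ≫ rO ≫ iO ≫ r = _
    have h5 : i ≫ (rE ≫ iE + rO ≫ iO) ≫ r = 𝟙 Q := by rw [hsum, Category.id_comp, hir]
    rw [← h5]
    simp
  rw [h4, End.mul_def] at hv
  simpa using hv

/-- Endomorphisms with zero realisation of a factor of a Kimura-finite tensor product are
nilpotent. -/
lemma nil_left (hU : UnitQ C) {M N : C} (hP : KimuraFinite (M ⊗ N)) {g : End N}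
    (hg : trq hU N g ≠ 0) (f : End M) (hf : R.H.map f = 0) : IsNilpotent f := by
  let F : End (M ⊗ N) := (f : M ⟶ M) ▷ N
  have hF : R.H.map F = 0 := by
    change R.H.map ((f : M ⟶ M) ▷ N) = 0
    rw [Functor.Monoidal.map_whiskerRight, hf]
    simp
  obtain ⟨k, hk⟩ := nil_of_kimura R hU hP (inRad_of_H R hU hF)
  have hpow : ∀ k : ℕ, (F ^ k : End (M ⊗ N)) = ((f ^ k : End M) : M ⟶ M) ▷ N := by
    intro k
    induction k with
    | zero =>
      change 𝟙 (M ⊗ N) = 𝟙 M ▷ N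
      rw [id_whiskerRight]
    | succ k ih =>
      rw [pow_succ, End.mul_def, ih, pow_succ, End.mul_def, comp_whiskerRight]
  refine ⟨k, ?_⟩
  have h1 : ((f ^ k : End M) : M ⟶ M) ▷ N = 0 := by
    rw [← hpow, hk]
  have h2 : ptr (((f ^ k : End M) : M ⟶ M) ⊗ₘ (g : N ⟶ N)) = trq hU N g • (f ^ k : End M) :=
    ptr_tensor _ _ _ (trq_spec hU g)
  rw [MonoidalCategory.tensorHom_def, h1, zero_comp] at h2
  have h3 : (0 : M ⟶ M) = trq hU N g • (f ^ k : End M) := by
    rw [← h2]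
    exact ((ptrL M N).map_zero).symm
  have h4 := congrArg (fun z => (trq hU N g)⁻¹ • z) h3
  simp only [smul_smul, inv_mul_cancel₀ hg, one_smul, smul_zero] at h4
  exact h4.symm

/-- Lifting of the projector to the even part. -/
lemma exists_idem {M : C} (hC : R.CPlus M)
    (hnil : ∀ f : End M, R.H.map f = 0 → IsNilpotent f) :
    ∃ e : M ⟶ M, e ≫ e = e ∧ (2 : K) • R.H.map e = 𝟙 _ + R.par M := by
  have hc := R_charZero R
  obtain ⟨f, hf⟩ := hC
  -- the endomorphism is idempotent on the realisation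
  have hff : R.H.map (f ≫ f - f) = 0 := by
    have h3 : (4 : K) • R.H.map (f ≫ f - f) = 0 := by
      have h4 : ((2 : K) • R.H.map f) ≫ ((2 : K) • R.H.map f) = (2 : K) • ((2 : K) • R.H.map f) := by
        rw [hf]
        simp only [Preadditive.comp_add, Preadditive.add_comp, Category.id_comp, Category.comp_id,
          R.par_sq]
        module
      rw [Functor.map_sub, Functor.map_comp, smul_sub]
      rw [Linear.smul_comp, Linear.comp_smul, smul_smul, smul_smul] at h4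
      norm_num at h4
      rw [h4, sub_self]
    have h5 := congrArg (fun z => (4 : K)⁻¹ • z) h3
    have h4 : (4 : K) ≠ 0 := by norm_num
    simpa only [smul_smul, inv_mul_cancel₀ h4, one_smul, smul_zero] using h5
  let f' : End M := f
  obtain ⟨e, c, he, hec⟩ := exists_lift (e := f') (hnil (f' * f' - f') hff)
  refine ⟨e, he, ?_⟩
  rw [← hf]
  congr 1
  have h3 : R.H.map (e - f' : End M) = 0 := by
    rw [hec, End.mul_def, Functor.map_comp]
    have : R.H.map (f' * f' - f' : End M) = 0 := hff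
    rw [this, comp_zero]
  have h4 : R.H.map (e - f' : End M) = R.H.map e - R.H.map f := R.H.map_sub
  rw [h4] at h3
  exact sub_eq_zero.mp h3

/-- Under the sign conjecture and nilpotence an object is the sum of objects with purely even and
purely odd realisation. -/
lemma split_sign [IsIdempotentComplete C] {M : C} (hC : R.CPlus M)
    (hnil : ∀ f : End M, R.H.map f = 0 → IsNilpotent f) :
    ∃ (E O : C) (i : E ⟶ M) (r : M ⟶ E) (j : O ⟶ M) (s : M ⟶ O),
      i ≫ r = 𝟙 E ∧ j ≫ s = 𝟙 O ∧ r ≫ i + s ≫ j = 𝟙 M ∧ R.par E = (1 : K) • 𝟙 _ ∧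
        R.par O = (-1 : K) • 𝟙 _ := by
  have hc := R_charZero R
  obtain ⟨e, he, hHe⟩ := exists_idem R hC hnil
  obtain ⟨E, i, r, hir, hri⟩ := IsIdempotentComplete.idempotents_split M e he
  have he' : (𝟙 M - e) ≫ (𝟙 M - e) = 𝟙 M - e := by
    simp [Preadditive.sub_comp, Preadditive.comp_sub, he]
  obtain ⟨O, j, s, hjs, hsj⟩ := IsIdempotentComplete.idempotents_split M (𝟙 M - e) he'
  have h4 : R.par M = (2 : K) • R.H.map e - 𝟙 _ := by rw [hHe]; simp
  refine ⟨E, O, i, r, j, s, hir, hjs, ?_, ?_, ?_⟩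
  · rw [hri, hsj]
    abel
  · have h3 : R.par E = R.H.map i ≫ R.par M ≫ R.H.map r := by
      rw [← R.par_natural, ← Functor.map_comp_assoc, hir, CategoryTheory.Functor.map_id,
        Category.id_comp]
    have h5 : i ≫ e ≫ r = 𝟙 E := by
      rw [← hri]
      simp only [Category.assoc, hir, Category.comp_id]
    rw [h3, h4, Preadditive.sub_comp, Preadditive.comp_sub, Linear.smul_comp, Linear.comp_smul,
      ← Functor.map_comp, ← Functor.map_comp, h5, Category.id_comp, ← Functor.map_comp, hir,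
      CategoryTheory.Functor.map_id]
    module
  · have h3 : R.par O = R.H.map j ≫ R.par M ≫ R.H.map s := by
      rw [← R.par_natural, ← Functor.map_comp_assoc, hjs, CategoryTheory.Functor.map_id,
        Category.id_comp]
    have h5 : j ≫ e ≫ s = 0 := by
      have h6 : e = 𝟙 M - s ≫ j := by rw [hsj]; abel
      rw [h6, Preadditive.sub_comp, Preadditive.comp_sub, Category.id_comp, hjs, Category.assoc,
        hjs, Category.comp_id, hjs, sub_self]
    rw [h3, h4, Preadditive.sub_comp, Preadditive.comp_sub, Linear.smul_comp, Linear.comp_smul,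
      ← Functor.map_comp, ← Functor.map_comp, h5, Category.id_comp, ← Functor.map_comp, hjs,
      CategoryTheory.Functor.map_id, Functor.map_zero]
    module

/-- A retract with purely even (odd) realisation of a Kimura-finite object is even (odd). -/
lemma pure_kill (hU : UnitQ C) {P Q : C} (hP : KimuraFinite P) (i : Q ⟶ P) (r : P ⟶ Q)
    (hir : i ≫ r = 𝟙 _) (d : ℚ) (hd : d = 1 ∨ d = -1) (hQ : R.par Q = (d : K) • 𝟙 _) :
    ∃ n : ℕ, 1 ≤ n ∧ asym (-d) Q n = 0 := by
  have hnil : ∀ x : End P, R.H.map x = 0 → IsNilpotent x := fun x hx =>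
    nil_of_kimura R hU hP (inRad_of_H R hU hx)
  obtain ⟨E, O, ⟨iE, rE, iO, rO, h1, h2, h3⟩, hE, hO⟩ := hP
  obtain ⟨n, hn, hE⟩ := (isEven_iff E).mp hE
  obtain ⟨m, hm, hO⟩ := (isOdd_iff O).mp hO
  have hpE := par_of_kill R (by norm_num) n hE
  have hpO := par_of_kill R (by norm_num) m hO
  rcases hd with rfl | rfl
  · obtain ⟨i', r', h4⟩ := retract_aux R hnil i r hir iE rE iO rO h3 1 (by norm_num)
      (by simpa using hQ) (by simpa using hpO)
    exact ⟨n, hn, kills_retract i' r' h4 hE⟩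
  · obtain ⟨i', r', h4⟩ := retract_aux R hnil i r hir iO rO iE rE (by rw [add_comm]; exact h3) (-1)
      (by norm_num) (by simpa using hQ) (by simpa using hpE)
    refine ⟨m, hm, ?_⟩
    rw [neg_neg]
    exact kills_retract i' r' h4 hO

lemma par_tensor_smul {A B : C} {a b : K} (hA : R.par A = a • 𝟙 _) (hB : R.par B = b • 𝟙 _) :
    R.par (A ⊗ B) = (a * b) • 𝟙 _ := by
  have h1 := R.par_tensor A B
  rw [hA, hB] at h1
  have h2 : (a • 𝟙 (R.H.obj A) ⊗ₘ b • 𝟙 (R.H.obj B)) = (a * b) • 𝟙 _ := by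
    simp only [MonoidalCategory.tensorHom_def, MonoidalLinear.smul_whiskerRight,
      MonoidalLinear.whiskerLeft_smul, Linear.smul_comp, Linear.comp_smul, id_whiskerRight,
      whiskerLeft_id, Category.comp_id, smul_smul, mul_comm b a]
  rw [h2, Linear.smul_comp, Category.id_comp] at h1
  have h3 := congrArg (fun z => Functor.OplaxMonoidal.δ R.H A B ≫ z) h1
  simpa using h3

/-- The main step. -/
lemma factor_kill (hU : UnitQ C) {M N A B : C} (hP : KimuraFinite (M ⊗ N)) (i : A ⟶ M) (r : M ⟶ A)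
    (hir : i ≫ r = 𝟙 _) (j : B ⟶ N) (s : N ⟶ B) (hjs : j ≫ s = 𝟙 _) (a b : ℚ)
    (ha : a = 1 ∨ a = -1) (hb : b = 1 ∨ b = -1) (hA : R.par A = (a : K) • 𝟙 _)
    (hB : R.par B = (b : K) • 𝟙 _) (hB0 : ¬ IsZero (R.H.obj B)) :
    ∃ n : ℕ, 1 ≤ n ∧ asym (-a) A n = 0 := by
  have hc := R_charZero R
  obtain ⟨n, hn, h1⟩ := pure_kill R hU hP (i ⊗ₘ j) (r ⊗ₘ s)
    (by rw [tensorHom_comp_tensorHom, hir, hjs, id_tensorHom_id]) (a * b)
    (by rcases ha with rfl | rfl <;> rcases hb with rfl | rfl <;> norm_num)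
    (by rw [par_tensor_smul R hA hB, Rat.cast_mul])
  have ha2 : (-a) * (-a) = 1 := by rcases ha with rfl | rfl <;> norm_num
  have hb2 : b * b = 1 := by rcases hb with rfl | rfl <;> norm_num
  refine ⟨n, hn, kill_descent hU ha2 hb2 A B n ?_ (F_one_ne R hU b hb2 hB hB0 n)⟩
  rw [neg_mul]
  exact h1

lemma not_isZero_of_trq (hU : UnitQ C) {X : C} {g : End X} (hg : trq hU X g ≠ 0) :
    ¬ IsZero (R.H.obj X) := by
  intro h
  apply hg
  have hc := R_charZero R
  have h1 := real_tr R hU (X := X) g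
  have h2 : R.H.map g ≫ R.par X = 0 := h.eq_of_src _ _
  rw [h2, ModuleCat.hom_zero, map_zero] at h1
  exact_mod_cast h1

lemma cplus_of_kimura {P : C} (hP : KimuraFinite P) : R.CPlus P := by
  obtain ⟨E, O, ⟨i, r, j, s, h1, h2, h3⟩, hE, hO⟩ := hP
  obtain ⟨n, hn, hE⟩ := (isEven_iff E).mp hE
  obtain ⟨m, hm, hO⟩ := (isOdd_iff O).mp hO
  have hpE := par_of_kill R (by norm_num) n hE
  have hpO := par_of_kill R (by norm_num) m hO
  refine ⟨r ≫ i, ?_⟩
  have h4 : R.par P = R.H.map (r ≫ i) - R.H.map (s ≫ j) := by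
    have h5 : R.par P = R.H.map (r ≫ i + s ≫ j) ≫ R.par P := by
      rw [h3, CategoryTheory.Functor.map_id, Category.id_comp]
    rw [h5, Functor.map_add, Functor.map_comp, Functor.map_comp, Preadditive.add_comp,
      Category.assoc, Category.assoc, R.par_natural, R.par_natural, hpE, hpO]
    simp [sub_eq_add_neg]
  have h6 : 𝟙 (R.H.obj P) = R.H.map (r ≫ i) + R.H.map (s ≫ j) := by
    rw [← Functor.map_add, h3, CategoryTheory.Functor.map_id]
  rw [h4, h6]
  module

lemma kimura_iso {P Q : C} (e : P ≅ Q) (hP : KimuraFinite P) : KimuraFinite Q := by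
  obtain ⟨E, O, ⟨i, r, j, s, h1, h2, h3⟩, hE, hO⟩ := hP
  refine ⟨E, O, ⟨i ≫ e.hom, e.inv ≫ r, j ≫ e.hom, e.inv ≫ s, ?_, ?_, ?_⟩, hE, hO⟩
  · simp [h1]
  · simp [h2]
  · have h4 : (e.inv ≫ r) ≫ i ≫ e.hom + (e.inv ≫ s) ≫ j ≫ e.hom =
        e.inv ≫ (r ≫ i + s ≫ j) ≫ e.hom := by simp
    rw [h4, h3]
    simp

include R in
theorem kimura_left [IsIdempotentComplete C] (hU : UnitQ C) {M N : C}
    (hP : KimuraFinite (M ⊗ N)) {gM : End M} (hM : trq hU M gM ≠ 0) {gN : End N}
    (hN : trq hU N gN ≠ 0) : KimuraFinite M := by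
  have hc := R_charZero R
  have hHM := not_isZero_of_trq R hU hM
  have hHN := not_isZero_of_trq R hU hN
  have hC := cplus_of_kimura R hP
  have hCM := cplus_of_tensor R hHN hC
  have hCN := cplus_of_tensor R hHM (cplus_braid R hC)
  have hP' := kimura_iso (β_ M N) hP
  obtain ⟨E, O, i, r, j, s, h1, h2, h3, h4, h5⟩ := split_sign R hCM (nil_left R hU hP hN)
  obtain ⟨E', O', i', r', j', s', h1', h2', h3', h4', h5'⟩ :=
    split_sign R hCN (nil_left R hU hP' hM)
  have key : ∃ (B : C) (jB : B ⟶ N) (sB : N ⟶ B) (b : ℚ), jB ≫ sB = 𝟙 _ ∧ (b = 1 ∨ b = -1) ∧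
      R.par B = (b : K) • 𝟙 _ ∧ ¬ IsZero (R.H.obj B) := by
    by_cases h : IsZero (R.H.obj E')
    · refine ⟨O', j', s', -1, h2', Or.inr rfl, by simpa using h5', fun h' => hHN ?_⟩
      rw [IsZero.iff_id_eq_zero, ← CategoryTheory.Functor.map_id, ← h3', Functor.map_add,
        Functor.map_comp, Functor.map_comp, h.eq_of_src (R.H.map i') 0,
        h'.eq_of_src (R.H.map j') 0, comp_zero, comp_zero, add_zero]
    · exact ⟨E', i', r', 1, h1', Or.inl rfl, by simpa using h4', h⟩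
  obtain ⟨B, jB, sB, b, hB1, hb, hB2, hB3⟩ := key
  refine ⟨E, O, ⟨i, r, j, s, h1, h2, h3⟩, ?_, ?_⟩
  · rw [isEven_iff]
    exact factor_kill R hU hP i r h1 jB sB hB1 1 b (Or.inl rfl) hb (by simpa using h4) hB2 hB3
  · rw [isOdd_iff]
    have := factor_kill R hU hP j s h2 jB sB hB1 (-1) b (Or.inr rfl) hb (by simpa using h5) hB2 hB3
    simpa using this

include R in
/-- If a nonzero tensor product is Kimura-finite then so are the factors. -/
theorem kimura_tensor [IsIdempotentComplete C] (hU : UnitQ C) {M N : C}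
    (hP : KimuraFinite (M ⊗ N)) (h0 : ¬ IsZero (M ⊗ N)) : KimuraFinite M ∧ KimuraFinite N := by
  have h1 : ∃ y : End (M ⊗ N), trq hU (M ⊗ N) y ≠ 0 := by
    by_contra hcon
    push Not at hcon
    obtain ⟨k, hk⟩ := nil_of_kimura R hU hP (x := 1) (fun γ => hcon _)
    rw [one_pow] at hk
    apply h0
    rw [IsZero.iff_id_eq_zero]
    exact hk
  obtain ⟨y, hy⟩ := h1
  have hM : trq hU M (ptr y) ≠ 0 := by rwa [trq_ptr R hU]
  have hN : trq hU N (ptr ((β_ N M).hom ≫ (y : M ⊗ N ⟶ M ⊗ N) ≫ (β_ N M).inv)) ≠ 0 := by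
    rw [trq_ptr R hU, trq_comm' R hU]
    simpa using hy
  exact ⟨kimura_left R hU hP hM hN, kimura_left R hU (kimura_iso (β_ M N) hP) hN hM⟩

end

end Pool.Agent.Y112.KD
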