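import Pool.Agent.Y112.KD.Real

/-!
# Even objects have even realisation, odd objects have odd realisation
-/

set_option autoImplicit false
set_option linter.unusedSectionVars false
set_option linter.unusedSimpArgs false
set_option backward.isDefEq.respectTransparency false
set_option backward.defeqAttrib.useBackward true

open CategoryTheory Limits MonoidalCategory
open Pool.Agent.Y112.SR

namespace Pool.Agent.Y112.KD

universe v u w

open Functor.LaxMonoidal Functor.OplaxMonoidal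

section

variable {C : Type u} [Category.{v} C] [Preadditive C] [Linear ℚ C] [MonoidalCategory C]
  [MonoidalPreadditive C] [MonoidalLinear ℚ C] [SymmetricCategory C]
  {K : Type w} [Field K] (R : SuperRealisation C K)

/-- The tensor product of vectors. -/
noncomputable def bx {Q X : C} (a : 𝟙_ (ModuleCat.{w} K) ⟶ R.H.obj Q)
    (b : 𝟙_ (ModuleCat.{w} K) ⟶ R.H.obj X) : 𝟙_ (ModuleCat.{w} K) ⟶ R.H.obj (Q ⊗ X) :=
  (λ_ _).inv ≫ (a ⊗ₘ b) ≫ μ R.H Q X

lemma bx_map {Q X Q' X' : C} (a : 𝟙_ (ModuleCat.{w} K) ⟶ R.H.obj Q)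
    (b : 𝟙_ (ModuleCat.{w} K) ⟶ R.H.obj X) (f : Q ⟶ Q') (g : X ⟶ X') :
    bx R a b ≫ R.H.map (f ⊗ₘ g) = bx R (a ≫ R.H.map f) (b ≫ R.H.map g) := by
  simp only [bx, Category.assoc]
  rw [← μ_natural, ← tensorHom_comp_tensorHom_assoc]

lemma bx_assoc {Q X Y : C} (a : 𝟙_ (ModuleCat.{w} K) ⟶ R.H.obj Q)
    (b : 𝟙_ (ModuleCat.{w} K) ⟶ R.H.obj X) (c : 𝟙_ (ModuleCat.{w} K) ⟶ R.H.obj Y) :
    bx R (bx R a b) c ≫ R.H.map (α_ Q X Y).hom = bx R a (bx R b c) := by
  have h1 := Functor.LaxMonoidal.associativity (F := R.H) Q X Y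
  have e1 : (bx R a b ⊗ₘ c) = ((λ_ _).inv ▷ _) ≫ ((a ⊗ₘ b) ⊗ₘ c) ≫ (μ R.H Q X ▷ R.H.obj Y) := by
    rw [bx, ← tensorHom_id, ← tensorHom_id, tensorHom_comp_tensorHom, tensorHom_comp_tensorHom]
    simp
  have e2 : (a ⊗ₘ bx R b c) = (_ ◁ (λ_ _).inv) ≫ (a ⊗ₘ (b ⊗ₘ c)) ≫ (R.H.obj Q ◁ μ R.H X Y) := by
    rw [bx, ← id_tensorHom, ← id_tensorHom, tensorHom_comp_tensorHom, tensorHom_comp_tensorHom]
    simp
  rw [bx, e1, Category.assoc, Category.assoc, Category.assoc, Category.assoc, h1, bx, e2,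
    associator_naturality_assoc]
  simp only [Category.assoc]
  have e3 : ((λ_ (𝟙_ (ModuleCat.{w} K))).inv ▷ 𝟙_ (ModuleCat.{w} K)) ≫ (α_ _ _ _).hom =
      (𝟙_ (ModuleCat.{w} K)) ◁ (λ_ (𝟙_ (ModuleCat.{w} K))).inv := by
    simp [unitors_inv_equal]
  rw [reassoc_of% e3]

/-- The symmetry acts by the sign on the square of a homogeneous vector. -/
lemma bx_symm {X : C} (b : 𝟙_ (ModuleCat.{w} K) ⟶ R.H.obj X) {e : K} (he : e * e = 1)
    (hb : b ≫ R.par X = e • b) : bx R b b ≫ R.H.map (β_ X X).hom = e • bx R b b := by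
  have hc := R_charZero R
  have h2' : (2 : K) ≠ 0 := two_ne_zero
  have h1 := R.symm X X
  have e1 : (b ⊗ₘ b) ≫ (R.par X ▷ R.H.obj X) = e • (b ⊗ₘ b) := by
    rw [← tensorHom_id, tensorHom_comp_tensorHom, hb, Category.comp_id]
    simp only [MonoidalCategory.tensorHom_def, MonoidalLinear.smul_whiskerRight, Linear.smul_comp]
  have e2 : (b ⊗ₘ b) ≫ (R.H.obj X ◁ R.par X) = e • (b ⊗ₘ b) := by
    rw [← id_tensorHom, tensorHom_comp_tensorHom, hb, Category.comp_id]
    simp only [MonoidalCategory.tensorHom_def, MonoidalLinear.whiskerLeft_smul, Linear.comp_smul]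
  have e3 : (b ⊗ₘ b) ≫ (R.par X ⊗ₘ R.par X) = b ⊗ₘ b := by
    rw [MonoidalCategory.tensorHom_def (R.par X), reassoc_of% e1, Linear.smul_comp, e2, smul_smul,
      he, one_smul]
  have h2 : (b ⊗ₘ b) ≫ (𝟙 _ + R.par X ▷ R.H.obj X + R.H.obj X ◁ R.par X -
      (R.par X ⊗ₘ R.par X)) = (2 * e) • (b ⊗ₘ b) := by
    rw [Preadditive.comp_sub, Preadditive.comp_add, Preadditive.comp_add, e1, e2, e3,
      Category.comp_id]
    module
  have h3 : (2 : K) • (bx R b b ≫ R.H.map (β_ X X).hom) = (2 : K) • (e • bx R b b) := by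
    rw [bx, Category.assoc, Category.assoc, ← Linear.comp_smul, ← Linear.comp_smul, R.symm,
      reassoc_of% h2, Linear.smul_comp, BraidedCategory.braiding_naturality_assoc]
    have h4 : (λ_ (𝟙_ (ModuleCat.{w} K))).inv ≫ (β_ (𝟙_ (ModuleCat.{w} K)) (𝟙_ _)).hom =
        (λ_ (𝟙_ (ModuleCat.{w} K))).inv := by
      simp [unitors_inv_equal]
    rw [Linear.comp_smul, reassoc_of% h4, smul_smul]
  have h6 := congrArg (fun z => (2 : K)⁻¹ • z) h3
  simpa only [smul_smul, ← mul_assoc, inv_mul_cancel₀ h2', one_smul, one_mul] using h6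

/-- The tensor powers of a vector. -/
noncomputable def bxn {X : C} (b : 𝟙_ (ModuleCat.{w} K) ⟶ R.H.obj X) :
    ∀ n : ℕ, 𝟙_ (ModuleCat.{w} K) ⟶ R.H.obj (tp X n)
  | 0 => ε R.H
  | n + 1 => bx R (bxn b n) b

lemma bx_smul_right {Q X : C} (a : 𝟙_ (ModuleCat.{w} K) ⟶ R.H.obj Q)
    (b : 𝟙_ (ModuleCat.{w} K) ⟶ R.H.obj X) (e : K) : bx R a (e • b) = e • bx R a b := by
  simp only [bx, MonoidalCategory.tensorHom_def, MonoidalLinear.whiskerLeft_smul, Linear.comp_smul,
    Linear.smul_comp]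

lemma bxn_sw {X : C} (b : 𝟙_ (ModuleCat.{w} K) ⟶ R.H.obj X) {e : K} (he : e * e = 1)
    (hb : b ≫ R.par X = e • b) (n : ℕ) :
    bxn R b (n + 2) ≫ R.H.map (sw (tp X n) X) = e • bxn R b (n + 2) := by
  have e1 : bxn R b (n + 2) ≫ R.H.map (α_ (tp X n) X X).hom = bx R (bxn R b n) (bx R b b) :=
    bx_assoc R _ _ _
  have e2 : bx R (bxn R b n) (bx R b b) ≫ R.H.map (tp X n ◁ (β_ X X).hom) =
      e • bx R (bxn R b n) (bx R b b) := by
    rw [← id_tensorHom, bx_map, CategoryTheory.Functor.map_id, Category.comp_id,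
      bx_symm R b he hb, bx_smul_right]
  rw [sw, Functor.map_comp, Functor.map_comp, reassoc_of% e1, reassoc_of% e2, ← e1,
    Linear.smul_comp, Category.assoc, ← Functor.map_comp, Iso.hom_inv_id,
    CategoryTheory.Functor.map_id, Category.comp_id]

lemma bxn_asym {X : C} (b : 𝟙_ (ModuleCat.{w} K) ⟶ R.H.obj X) {η : ℚ} (hη : η * η = 1)
    (hb : b ≫ R.par X = (η : K) • b) (n : ℕ) :
    bxn R b n ≫ R.H.map (asym η X n) = bxn R b n := by
  have hc := R_charZero R
  have he : (η : K) * (η : K) = 1 := by exact_mod_cast congrArg (fun q : ℚ => (q : K)) hη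
  induction n with
  | zero => simp [asym_zero]
  | succ n ih =>
    rcases n with - | n
    · simp [asym_one]
    · have e1 : bxn R b (n + 2) ≫ R.H.map (asym η X (n + 1) ▷ X) = bxn R b (n + 2) := by
        have e2 : bxn R b (n + 2) = bx R (bxn R b (n + 1)) b := rfl
        rw [e2, ← tensorHom_id, bx_map, ih, CategoryTheory.Functor.map_id, Category.comp_id]
      have e3 := bxn_sw R b he hb n
      rw [asym_succ, R_smul, Functor.map_add, R_smul, Functor.map_comp, Functor.map_comp,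
        Linear.comp_smul, Preadditive.comp_add, Linear.comp_smul, e1, reassoc_of% e1,
        reassoc_of% e3, Linear.smul_comp, e1, smul_smul]
      have e4 : ((η * ((n + 1 : ℕ) : ℚ) : ℚ) : K) * (η : K) = ((n + 1 : ℕ) : K) := by
        push_cast
        linear_combination ((n : K) + 1) * he
      rw [e4]
      have e5 : bxn R b (n + 2) + ((n + 1 : ℕ) : K) • bxn R b (n + 2) =
          (((n + 1 : ℕ) : K) + 1) • bxn R b (n + 2) := by module
      have hn : ((n + 1 : ℕ) : K) + 1 ≠ 0 := by exact_mod_cast Nat.succ_ne_zero (n + 1)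
      rw [e5, smul_smul]
      push_cast
      push_cast at hn
      rw [inv_mul_cancel₀ hn, one_smul]

/-- A nonzero vector has nonzero tensor powers. -/
lemma bxn_ne {X : C} (b : 𝟙_ (ModuleCat.{w} K) ⟶ R.H.obj X) (r : R.H.obj X ⟶ 𝟙_ (ModuleCat.{w} K))
    (h : b ≫ r = 𝟙 _) (n : ℕ) : ∃ s : R.H.obj (tp X n) ⟶ 𝟙_ (ModuleCat.{w} K),
      bxn R b n ≫ s = 𝟙 _ := by
  induction n with
  | zero => exact ⟨η R.H, Functor.Monoidal.ε_η R.H⟩
  | succ n ih =>
    obtain ⟨s, hs⟩ := ih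
    refine ⟨δ R.H (tp X n) X ≫ (s ⊗ₘ r) ≫ (λ_ _).hom, ?_⟩
    have e2 : bxn R b (n + 1) = bx R (bxn R b n) b := rfl
    rw [e2, bx, Category.assoc, Category.assoc, Functor.Monoidal.μ_δ_assoc,
      tensorHom_comp_tensorHom_assoc, hs, h]
    simp

/-- Even objects (`η = -1`) have even realisation, odd objects (`η = 1`) odd realisation. -/
theorem par_of_kill {X : C} {η : ℚ} (hη : η * η = 1) (n : ℕ) (h : asym η X n = 0) :
    R.par X = (-η : K) • 𝟙 _ := by
  have hc := R_charZero R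
  have he : (η : K) * (η : K) = 1 := by exact_mod_cast congrArg (fun q : ℚ => (q : K)) hη
  have hpp : ∀ v : R.H.obj X, (R.par X).hom ((R.par X).hom v) = v := fun v => by
    have h1 := LinearMap.congr_fun (congrArg ModuleCat.Hom.hom (R.par_sq X)) v
    exact h1
  have key : ∀ v : R.H.obj X, (R.par X).hom v = (η : K) • v → v = 0 := by
    intro v hv
    by_contra hne
    let b : 𝟙_ (ModuleCat.{w} K) ⟶ R.H.obj X :=
      ModuleCat.ofHom (LinearMap.toSpanSingleton K (R.H.obj X) v)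
    obtain ⟨g, hg⟩ := LinearMap.exists_leftInverse_of_injective
      (LinearMap.toSpanSingleton K (R.H.obj X) v) (LinearMap.ker_toSpanSingleton K hne)
    have hb : b ≫ R.par X = (η : K) • b := by
      apply ModuleCat.hom_ext
      apply LinearMap.ext_ring
      change (R.par X).hom ((1 : K) • v) = (η : K) • ((1 : K) • v)
      rw [one_smul, hv]
    obtain ⟨s, hs⟩ := bxn_ne R b (ModuleCat.ofHom g) (by
      apply ModuleCat.hom_ext
      exact hg) n
    rw [← bxn_asym R b hη hb n, h, Functor.map_zero, comp_zero, zero_comp] at hs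
    have h4 := LinearMap.congr_fun (congrArg ModuleCat.Hom.hom hs) (1 : K)
    exact zero_ne_one (α := K) h4
  apply ModuleCat.hom_ext
  apply LinearMap.ext
  intro v
  have h1 := key (v + (η : K) • (R.par X).hom v) (by
    rw [map_add, map_smul, hpp, smul_add, smul_smul, he, one_smul, add_comm])
  have h2 : (R.par X).hom v = (-η : K) • v := by
    have h3 : (η : K) • ((η : K) • (R.par X).hom v) = (η : K) • (-v) := by
      rw [← eq_neg_iff_add_eq_zero.mpr ((add_comm _ _).trans h1)]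
    rw [smul_smul, he, one_smul] at h3
    rw [h3, smul_neg, neg_smul]
  exact h2

end

end Pool.Agent.Y112.KD
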