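import Pool.Agent.Y112.KD.Zip

/-!
# Traces and realisations
-/

set_option autoImplicit false
set_option linter.unusedSectionVars false
set_option linter.unusedSimpArgs false
set_option backward.isDefEq.respectTransparency false
set_option backward.defeqAttrib.useBackward true

open CategoryTheory Limits MonoidalCategory
open Pool.Agent.Y112.SR
open Pool.Agent.Y116.MT (tr)
open Pool.Agent.TH829.Kim (K F F_succ InRad)

namespace Pool.Agent.Y112.KD

universe v u w

open Functor.LaxMonoidal Functor.OplaxMonoidal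

section

variable {C : Type u} [Category.{v} C] [Preadditive C] [Linear ℚ C] [MonoidalCategory C]
  [MonoidalPreadditive C] [MonoidalLinear ℚ C] [SymmetricCategory C]
  [RightRigidCategory C] {K : Type w} [Field K] (R : SuperRealisation C K)

/-- The realisation of the trace is the supertrace. -/
lemma real_tr (hU : UnitQ C) {X : C} (a : X ⟶ X) : ((trq hU X a : ℚ) : K) =
    LinearMap.trace K (R.H.obj X) (R.H.map a ≫ R.par X).hom := by
  have h0 := R.finite X
  have hc := R_charZero R
  have h1 := Pool.Agent.Y116.MT.vec_trace (coe R X) (evb R X) (zigzag R X) (R.H.map a ≫ R.par X)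
  have h3 : coe R X ≫ R.H.map a ▷ R.H.obj Xᘁ ≫ eva R X =
      (LinearMap.trace K (R.H.obj X) (R.H.map a ≫ R.par X).hom) • 𝟙 _ := by
    rw [eva_eq R two_ne_zero, ← h1, ← unit_hom]
    simp only [comp_whiskerRight, Category.assoc]
  have h4 : ε R.H ≫ R.H.map (tr a) ≫ η R.H = coe R X ≫ R.H.map a ▷ R.H.obj Xᘁ ≫ eva R X := by
    simp only [tr, coe, eva, Functor.map_comp, Functor.Monoidal.map_whiskerRight, Category.assoc,
      Functor.Monoidal.μ_δ_assoc]
  have h5 : ε R.H ≫ R.H.map (tr a) ≫ η R.H = ((trq hU X a : ℚ) : K) • 𝟙 _ := by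
    rw [trq_spec hU a, R_smul, CategoryTheory.Functor.map_id, Linear.smul_comp, Linear.comp_smul,
      Category.id_comp, Functor.Monoidal.ε_η]
  have h6 := h5.symm.trans (h4.trans h3)
  have h7 := LinearMap.congr_fun (congrArg ModuleCat.Hom.hom h6) (1 : K)
  change ((trq hU X a : ℚ) : K) • (1 : K) =
    (LinearMap.trace K (R.H.obj X) (R.H.map a ≫ R.par X).hom) • (1 : K) at h7
  simpa using h7

include R in
lemma trq_comm' (hU : UnitQ C) {X Y : C} (a : X ⟶ Y) (b : Y ⟶ X) :
    trq hU X (a ≫ b) = trq hU Y (b ≫ a) := by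
  have hc := R_charZero R
  have h0 := R.finite X
  have h0' := R.finite Y
  have h1 : ((trq hU X (a ≫ b) : ℚ) : K) = ((trq hU Y (b ≫ a) : ℚ) : K) := by
    rw [real_tr R hU, real_tr R hU, Functor.map_comp, Functor.map_comp, Category.assoc,
      R.par_natural, ← Category.assoc, ModuleCat.hom_comp, Category.assoc, ModuleCat.hom_comp,
      ← LinearMap.trace_comp_comm', ← ModuleCat.hom_comp, R.par_natural, ← ModuleCat.hom_comp]
  exact_mod_cast h1

/-- The space of linear maps on a tensor product is spanned by tensor products. -/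
lemma tensor_ext {V W : Type w} [AddCommGroup V] [Module K V] [Module.Finite K V]
    [AddCommGroup W] [Module K W] [Module.Finite K W] {L : Type w} [AddCommGroup L] [Module K L]
    (f g : (TensorProduct K V W →ₗ[K] TensorProduct K V W) →ₗ[K] L)
    (h : ∀ (a : V →ₗ[K] V) (b : W →ₗ[K] W), f (TensorProduct.map a b) = g (TensorProduct.map a b)) :
    f = g := by
  have h1 : f ∘ₗ (homTensorHomEquiv K V W V W).toLinearMap =
      g ∘ₗ (homTensorHomEquiv K V W V W).toLinearMap := by
    apply TensorProduct.ext'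
    intro a b
    simpa using h a b
  ext x
  have h2 := LinearMap.congr_fun h1 ((homTensorHomEquiv K V W V W).symm x)
  rwa [LinearMap.comp_apply, LinearMap.comp_apply, LinearEquiv.coe_coe,
    LinearEquiv.apply_symm_apply] at h2

lemma pt_smul {M N : C} (c : K) (x : R.H.obj M ⊗ R.H.obj N ⟶ R.H.obj M ⊗ R.H.obj N) :
    pt R (c • x) = c • pt R x := by
  simp only [pt, MonoidalLinear.smul_whiskerRight, Linear.comp_smul, Linear.smul_comp]

/-- The realisation of the trace of a partial trace. -/
lemma trace_pt {M N : C} (x : R.H.obj M ⊗ R.H.obj N ⟶ R.H.obj M ⊗ R.H.obj N) :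
    LinearMap.trace K (R.H.obj M) (pt R x ≫ R.par M).hom =
      LinearMap.trace K (TensorProduct K (R.H.obj M) (R.H.obj N))
        (x ≫ (R.par M ⊗ₘ R.par N)).hom := by
  have hc := R_charZero R
  have h0 := R.finite M
  have h0' := R.finite N
  let f : (TensorProduct K (R.H.obj M) (R.H.obj N) →ₗ[K] TensorProduct K (R.H.obj M) (R.H.obj N))
      →ₗ[K] K :=
    { toFun := fun y => LinearMap.trace K (R.H.obj M)
        (pt R (N := N) (ModuleCat.ofHom y) ≫ R.par M).hom
      map_add' := fun y z => by
        rw [ModuleCat.ofHom_add]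
        erw [pt_add]
        rw [Preadditive.add_comp, ModuleCat.hom_add, map_add]
      map_smul' := fun c y => by
        have e1 : pt R (N := N) (M := M) (ModuleCat.ofHom (c • y)) =
            c • pt R (N := N) (M := M) (ModuleCat.ofHom y) := pt_smul R c _
        rw [e1, Linear.smul_comp, ModuleCat.hom_smul, map_smul, RingHom.id_apply] }
  let g : (TensorProduct K (R.H.obj M) (R.H.obj N) →ₗ[K] TensorProduct K (R.H.obj M) (R.H.obj N))
      →ₗ[K] K :=
    { toFun := fun y => LinearMap.trace K (TensorProduct K (R.H.obj M) (R.H.obj N))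
        (TensorProduct.map (R.par M).hom (R.par N).hom ∘ₗ y)
      map_add' := fun y z => by
        rw [LinearMap.comp_add, map_add]
      map_smul' := fun c y => by
        rw [LinearMap.comp_smul, map_smul, RingHom.id_apply] }
  have h1 : f = g := by
    apply tensor_ext
    intro a b
    have e1 : f (TensorProduct.map a b) = LinearMap.trace K (R.H.obj M)
        (pt R (ModuleCat.ofHom a ⊗ₘ ModuleCat.ofHom b) ≫ R.par M).hom := rfl
    have e2 : g (TensorProduct.map a b) = LinearMap.trace K (TensorProduct K (R.H.obj M)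
        (R.H.obj N)) (TensorProduct.map ((R.par M).hom ∘ₗ a) ((R.par N).hom ∘ₗ b)) := by
      rw [TensorProduct.map_comp]
      rfl
    rw [e1, e2, pt_tensor R two_ne_zero, LinearMap.trace_tensorProduct', Linear.smul_comp,
      ModuleCat.hom_smul, map_smul, smul_eq_mul, mul_comm]
    rfl
  exact LinearMap.congr_fun h1 x.hom

include R in
lemma trq_ptr (hU : UnitQ C) {M N : C} (y : M ⊗ N ⟶ M ⊗ N) :
    trq hU M (ptr y) = trq hU (M ⊗ N) y := by
  have hc := R_charZero R
  have h0 := R.finite M
  have h0' := R.finite N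
  have h0'' := R.finite (M ⊗ N)
  have h1 : ((trq hU M (ptr y) : ℚ) : K) = ((trq hU (M ⊗ N) y : ℚ) : K) := by
    rw [real_tr R hU, real_tr R hU, map_ptr, trace_pt]
    have e1 : (μ R.H M N ≫ R.H.map y ≫ δ R.H M N) ≫ (R.par M ⊗ₘ R.par N) =
        μ R.H M N ≫ ((R.H.map y ≫ R.par (M ⊗ N)) ≫ δ R.H M N) := by
      simp only [Category.assoc]
      rw [par_delta]
    rw [e1, ModuleCat.hom_comp]
    have h3 : Module.Finite K ↑(R.H.obj M ⊗ R.H.obj N) :=
      inferInstanceAs (Module.Finite K (TensorProduct K (R.H.obj M) (R.H.obj N)))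
    have e2 := LinearMap.trace_comp_comm' (R := K) (μ R.H M N).hom
      ((R.H.map y ≫ R.par (M ⊗ N)) ≫ δ R.H M N).hom
    refine e2.trans ?_
    rw [← ModuleCat.hom_comp, Category.assoc, Functor.Monoidal.δ_μ, Category.comp_id]
  exact_mod_cast h1

/-- The dimension of an object with purely even or odd realisation. -/
lemma trq_one (hU : UnitQ C) {X : C} (d : ℚ) (hX : R.par X = (d : K) • 𝟙 _) :
    trq hU X (1 : End X) = d * Module.finrank K (R.H.obj X) := by
  have hc := R_charZero R
  have h0 := R.finite X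
  have h1 : ((trq hU X (1 : End X) : ℚ) : K) = ((d * Module.finrank K (R.H.obj X) : ℚ) : K) := by
    have e1 := real_tr R hU (𝟙 X)
    rw [CategoryTheory.Functor.map_id, Category.id_comp, hX] at e1
    rw [ModuleCat.hom_smul, map_smul, ModuleCat.hom_id, LinearMap.trace_id] at e1
    refine e1.trans ?_
    push_cast
    rfl
  exact_mod_cast h1

/-- The trace of the (anti)symmetrizer. -/
lemma F_one {R' : Type*} [Ring R'] [Algebra ℚ R'] (t : R' →ₗ[ℚ] ℚ) (η : ℚ) (n : ℕ) :
    F t η n (fun _ => 1) = ∏ i ∈ Finset.range n, (t 1 + η * i) := by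
  induction n with
  | zero => simp [F]
  | succ n ih =>
    rw [F_succ, Finset.prod_range_succ, ← ih]
    have h1 : ∀ i : Fin n, F t η n (Function.update (fun _ : Fin n => (1 : R')) i (1 * 1)) =
        F t η n (fun _ => 1) := by
      intro i
      congr 1
      rw [one_mul, Function.update_eq_self_iff]
    simp only [h1, Finset.sum_const, Finset.card_univ, Fintype.card_fin, nsmul_eq_mul]
    ring

lemma F_one_ne (hU : UnitQ C) {X : C} (d : ℚ) (hd : d * d = 1) (hX : R.par X = (d : K) • 𝟙 _)
    (h0 : ¬ IsZero (R.H.obj X)) (n : ℕ) :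
    F (trq hU X) d n (fun _ => (1 : End X)) ≠ 0 := by
  rw [F_one, trq_one R hU d hX]
  apply Finset.prod_ne_zero_iff.mpr
  intro i _
  have hd' : d ≠ 0 := fun h => by simp [h] at hd
  have h1 := finrank_ne_zero R h0
  rw [← mul_add]
  apply mul_ne_zero hd'
  positivity

end

end Pool.Agent.Y112.KD
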