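import Mathlib

/-!
# The recursion of the symmetrizers and antisymmetrizers, in a ring
-/

set_option autoImplicit false

namespace Pool.Agent.Y112.KD

section

variable {R : Type*} [Ring R] [Algebra ℚ R] {c t s a : R} {η : ℚ} {m : ℕ}

lemma ca_eq (hm : (m : ℚ) ≠ 0) (hc : c * c = c)
    (had : (m : ℚ) • a = c + (η * (m - 1)) • (c * t * c)) : c * a = a ∧ a * c = a := by
  have h1 : (m : ℚ) • (c * a) = (m : ℚ) • a := by
    rw [← mul_smul_comm, had, mul_add, hc, mul_smul_comm, mul_assoc c t c, ← mul_assoc c c, hc]
  have h2 : (m : ℚ) • (a * c) = (m : ℚ) • a := by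
    rw [← smul_mul_assoc, had, add_mul, hc, smul_mul_assoc, mul_assoc (c * t) c c, hc]
  constructor
  · have h3 := congrArg (fun z => (m : ℚ)⁻¹ • z) h1
    simpa only [smul_smul, inv_mul_cancel₀ hm, one_smul] using h3
  · have h3 := congrArg (fun z => (m : ℚ)⁻¹ • z) h2
    simpa only [smul_smul, inv_mul_cancel₀ hm, one_smul] using h3

/-- The induction step. -/
lemma step (hη : η * η = 1) (hm : (m : ℚ) ≠ 0) (hc : c * c = c) (hsc : s * c = c * s)
    (hs : s * s = 1) (hb : t * s * t = s * t * s) (ha : a * a = a)
    (hta : t * a = η • a) (hat : a * t = η • a)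
    (had : (m : ℚ) • a = c + (η * (m - 1)) • (c * t * c)) :
    (((m : ℚ) + 1)⁻¹ • (a + (η * m) • (a * s * a))) *
        (((m : ℚ) + 1)⁻¹ • (a + (η * m) • (a * s * a))) =
      ((m : ℚ) + 1)⁻¹ • (a + (η * m) • (a * s * a)) ∧
    s * (((m : ℚ) + 1)⁻¹ • (a + (η * m) • (a * s * a))) =
      η • (((m : ℚ) + 1)⁻¹ • (a + (η * m) • (a * s * a))) ∧
    (((m : ℚ) + 1)⁻¹ • (a + (η * m) • (a * s * a))) * s =
      η • (((m : ℚ) + 1)⁻¹ • (a + (η * m) • (a * s * a))) := by
  obtain ⟨hca, hac⟩ := ca_eq hm hc had
  have hm1 : (m : ℚ) + 1 ≠ 0 := by positivity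
  have e0 : s * c * s = c := by rw [hsc, mul_assoc, hs, mul_one]
  have e1 : s * (c * t * c) * s = c * t * s * t * c := by
    calc s * (c * t * c) * s = (s * c) * t * (c * s) := by simp only [mul_assoc]
      _ = (c * s) * t * (s * c) := by rw [hsc]
      _ = c * (s * t * s) * c := by simp only [mul_assoc]
      _ = c * t * s * t * c := by rw [← hb]; simp only [mul_assoc]
  have k1 : (m : ℚ) • (a * s * a * s * a) = a + (η * (m - 1)) • (a * s * a) := by
    have h2 : a * (s * c * s) * a = a := by rw [e0, hac, ha]
    have h3 : a * (s * (c * t * c) * s) * a = a * s * a := by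
      calc a * (s * (c * t * c) * s) * a = (a * c) * t * s * t * (c * a) := by
            rw [e1]; simp only [mul_assoc]
        _ = (a * t) * s * (t * a) := by rw [hac, hca]; simp only [mul_assoc]
        _ = (η * η) • (a * s * a) := by
            rw [hat, hta, mul_smul_comm, smul_mul_assoc, smul_mul_assoc, smul_smul]
        _ = a * s * a := by rw [hη, one_smul]
    calc (m : ℚ) • (a * s * a * s * a) = a * (s * ((m : ℚ) • a) * s) * a := by
          simp only [mul_smul_comm, smul_mul_assoc, mul_assoc]
      _ = a * (s * c * s) * a + (η * (m - 1)) • (a * (s * (c * t * c) * s) * a) := by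
          rw [had]
          simp only [mul_add, add_mul, mul_smul_comm, smul_mul_assoc]
      _ = a + (η * (m - 1)) • (a * s * a) := by rw [h2, h3]
  have k2 : (m : ℚ) • (s * a * s * a) = a + ((m : ℚ) - 1) • (c * t * s * a) := by
    have h3 : s * (c * t * c) * s * a = η • (c * t * s * a) := by
      calc s * (c * t * c) * s * a = c * t * s * (t * (c * a)) := by
            rw [e1]; simp only [mul_assoc]
        _ = η • (c * t * s * a) := by rw [hca, hta, mul_smul_comm]
    calc (m : ℚ) • (s * a * s * a) = s * ((m : ℚ) • a) * s * a := by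
          simp only [mul_smul_comm, smul_mul_assoc, mul_assoc]
      _ = (s * c * s) * a + (η * (m - 1)) • (s * (c * t * c) * s * a) := by
          rw [had]
          simp only [mul_add, add_mul, mul_smul_comm, smul_mul_assoc]
      _ = a + ((m : ℚ) - 1) • (c * t * s * a) := by
          rw [e0, h3, hca, smul_smul]
          congr 2
          linear_combination ((m : ℚ) - 1) * hη
  have k2' : (m : ℚ) • (a * s * a * s) = a + ((m : ℚ) - 1) • (a * s * t * c) := by
    have h3 : a * (s * (c * t * c) * s) = η • (a * s * t * c) := by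
      calc a * (s * (c * t * c) * s) = (a * c) * t * (s * t * c) := by
            rw [e1]; simp only [mul_assoc]
        _ = η • (a * s * t * c) := by
            rw [hac, hat, smul_mul_assoc]; simp only [mul_assoc]
    calc (m : ℚ) • (a * s * a * s) = a * (s * ((m : ℚ) • a) * s) := by
          simp only [mul_smul_comm, smul_mul_assoc, mul_assoc]
      _ = a * (s * c * s) + (η * (m - 1)) • (a * (s * (c * t * c) * s)) := by
          rw [had]
          simp only [mul_add, add_mul, mul_smul_comm, smul_mul_assoc]
      _ = a + ((m : ℚ) - 1) • (a * s * t * c) := by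
          rw [e0, h3, hac, smul_smul]
          congr 2
          linear_combination ((m : ℚ) - 1) * hη
  have k3 : (m : ℚ) • (a * s * a) = s * a + (η * (m - 1)) • (c * t * s * a) := by
    calc (m : ℚ) • (a * s * a) = ((m : ℚ) • a) * s * a := by
          simp only [smul_mul_assoc]
      _ = (c * s) * a + (η * (m - 1)) • (c * t * (c * s) * a) := by
          rw [had]
          simp only [add_mul, smul_mul_assoc, mul_assoc]
      _ = s * (c * a) + (η * (m - 1)) • (c * t * s * (c * a)) := by
          rw [← hsc]; simp only [mul_assoc]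
      _ = s * a + (η * (m - 1)) • (c * t * s * a) := by rw [hca]
  have k3' : (m : ℚ) • (a * s * a) = a * s + (η * (m - 1)) • (a * s * t * c) := by
    calc (m : ℚ) • (a * s * a) = a * s * ((m : ℚ) • a) := by
          simp only [mul_smul_comm]
      _ = a * (s * c) + (η * (m - 1)) • (a * (s * c) * t * c) := by
          rw [had]
          simp only [mul_add, mul_smul_comm, mul_assoc]
      _ = (a * c) * s + (η * (m - 1)) • ((a * c) * s * t * c) := by
          rw [hsc]; simp only [mul_assoc]
      _ = a * s + (η * (m - 1)) • (a * s * t * c) := by rw [hac]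
  set u := a * s * a with hu
  have q1 : a * u = u := by rw [hu, ← mul_assoc, ← mul_assoc, ha]
  have q2 : u * a = u := by rw [hu, mul_assoc, ha]
  have q3 : (m : ℚ) • (u * u) = a + (η * (m - 1)) • u := by
    rw [← k1, hu]
    congr 1
    calc a * s * a * (a * s * a) = a * s * (a * a) * s * a := by simp only [mul_assoc]
      _ = a * s * a * s * a := by rw [ha]
  refine ⟨?_, ?_, ?_⟩
  · rw [smul_mul_smul_comm]
    have h5 : (a + (η * m) • u) * (a + (η * m) • u) = ((m : ℚ) + 1) • (a + (η * m) • u) := by
      have h6 : (a + (η * m) • u) * (a + (η * m) • u) = a * a + (η * m) • (a * u) +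
          (η * m) • (u * a) + (η * η * m) • ((m : ℚ) • (u * u)) := by
        simp only [mul_add, add_mul, mul_smul_comm, smul_mul_assoc, smul_smul, smul_add]
        have h7 : η * (m : ℚ) * (η * m) = η * η * m * m := by ring
        rw [h7]
        abel
      rw [h6, q1, q2, q3, ha, hη]
      module
    rw [h5, smul_smul]
    congr 1
    field_simp
  · rw [mul_smul_comm, smul_comm η]
    congr 1
    have h5 : s * (a + (η * m) • u) = s * a + η • ((m : ℚ) • (s * a * s * a)) := by
      rw [mul_add, mul_smul_comm, hu, smul_smul]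
      simp only [mul_assoc]
    have h6 : η • (a + (η * m) • u) = η • a + (η * η) • ((m : ℚ) • u) := by
      rw [smul_add, smul_smul, smul_smul]
      ring_nf
    rw [h5, h6, k2, hη, one_smul, k3]
    module
  · rw [smul_mul_assoc, smul_comm η]
    congr 1
    have h5 : (a + (η * m) • u) * s = a * s + η • ((m : ℚ) • (a * s * a * s)) := by
      rw [add_mul, smul_mul_assoc, hu, smul_smul]
    have h6 : η • (a + (η * m) • u) = η • a + (η * η) • ((m : ℚ) • u) := by
      rw [smul_add, smul_smul, smul_smul]
      ring_nf
    rw [h5, h6, k2', hη, one_smul, k3']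
    module

end

end Pool.Agent.Y112.KD
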