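import Pool.Agent.Y112.KD.Kill

/-!
# Tensor powers of a tensor product
-/

set_option autoImplicit false
set_option linter.unusedSectionVars false
set_option linter.unusedSimpArgs false

open CategoryTheory Limits MonoidalCategory
open Pool.Agent.Y112.SR (ptr ptr_symm)
open Pool.Agent.Y116.MT (tr)

namespace Pool.Agent.Y112.KD

universe v u

section

variable {C : Type u} [Category.{v} C] [MonoidalCategory C] [SymmetricCategory C]

lemma mu_eq (A B : C) : tensorμ A B A B = tensorδ A A B B := by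
  simp only [tensorμ, tensorδ, SymmetricCategory.braiding_swap_eq_inv_braiding A B]

lemma braid_mu (A B : C) : (β_ (A ⊗ B) (A ⊗ B)).hom ≫ tensorμ A B A B =
    tensorμ A B A B ≫ ((β_ A A).hom ⊗ₘ (β_ B B).hom) := by
  have h1 := SymmetricCategory.tensorμ_braid_swap A B
  have h2 := congrArg (fun z => tensorδ A A B B ≫ z ≫ tensorδ A A B B) h1
  simp only [Category.assoc, tensorδ_tensorμ_assoc, tensorμ_tensorδ, Category.comp_id] at h2
  rw [mu_eq, h2]

lemma sw_mu (U V A B : C) : sw (U ⊗ V) (A ⊗ B) ≫ (tensorμ U V A B ▷ (A ⊗ B)) ≫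
    tensorμ (U ⊗ A) (V ⊗ B) A B =
    (tensorμ U V A B ▷ (A ⊗ B)) ≫ tensorμ (U ⊗ A) (V ⊗ B) A B ≫ (sw U A ⊗ₘ sw V B) := by
  have h1 := tensor_associativity U V A B A B
  have h2 : (tensorμ U V A B ▷ (A ⊗ B)) ≫ tensorμ (U ⊗ A) (V ⊗ B) A B =
      (α_ (U ⊗ V) (A ⊗ B) (A ⊗ B)).hom ≫ ((U ⊗ V) ◁ tensorμ A B A B) ≫
      tensorμ U V (A ⊗ A) (B ⊗ B) ≫ ((α_ U A A).inv ⊗ₘ (α_ V B B).inv) := by
    have h3 := congrArg (fun z => z ≫ ((α_ U A A).inv ⊗ₘ (α_ V B B).inv)) h1
    simpa using h3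
  rw [← Category.assoc (tensorμ U V A B ▷ (A ⊗ B)), h2]
  simp only [sw, Category.assoc, Iso.inv_hom_id_assoc, tensorHom_comp_tensorHom]
  rw [← MonoidalCategory.whiskerLeft_comp_assoc, braid_mu,
    MonoidalCategory.whiskerLeft_comp_assoc, tensorμ_natural_right_assoc, tensorHom_comp_tensorHom]

/-- The comparison of the tensor powers of a tensor product. -/
def zip (A B : C) : ∀ n : ℕ, (tp (A ⊗ B) n ⟶ tp A n ⊗ tp B n)
  | 0 => (λ_ (𝟙_ C)).inv
  | n + 1 => (zip A B n ▷ (A ⊗ B)) ≫ tensorμ (tp A n) (tp B n) A B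

lemma zip_succ (A B : C) (n : ℕ) : zip A B (n + 1) =
    (zip A B n ▷ (A ⊗ B)) ≫ tensorμ (tp A n) (tp B n) A B := rfl

lemma zip_inv (A B : C) (n : ℕ) : ∃ u : tp A n ⊗ tp B n ⟶ tp (A ⊗ B) n, u ≫ zip A B n = 𝟙 _ := by
  induction n with
  | zero => exact ⟨(λ_ (𝟙_ C)).hom, by simp [zip]⟩
  | succ n ih =>
    obtain ⟨u, hu⟩ := ih
    refine ⟨tensorδ (tp A n) (tp B n) A B ≫ u ▷ (A ⊗ B), ?_⟩
    rw [zip_succ, Category.assoc, ← comp_whiskerRight_assoc, hu]
    simp

lemma zip_swap (A B : C) {n : ℕ} {s : tp (A ⊗ B) n ⟶ tp (A ⊗ B) n} (hs : IsSwap (A ⊗ B) n s) :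
    ∃ (s' : tp A n ⟶ tp A n) (s'' : tp B n ⟶ tp B n), IsSwap A n s' ∧ IsSwap B n s'' ∧
      s ≫ zip A B n = zip A B n ≫ (s' ⊗ₘ s'') := by
  induction hs with
  | last n =>
    refine ⟨_, _, IsSwap.last n, IsSwap.last n, ?_⟩
    rw [zip_succ, zip_succ, comp_whiskerRight]
    simp only [Category.assoc]
    rw [← sw_mu, reassoc_of% (sw_nat_left (X := A ⊗ B) (zip A B n))]
  | lift n s hs ih =>
    obtain ⟨s', s'', h1, h2, h3⟩ := ih
    refine ⟨_, _, IsSwap.lift _ _ h1, IsSwap.lift _ _ h2, ?_⟩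
    rw [zip_succ, ← comp_whiskerRight_assoc, h3, comp_whiskerRight_assoc, tensorμ_natural_left,
      Category.assoc]

end

section

variable {C : Type u} [Category.{v} C] [MonoidalCategory C] [SymmetricCategory C]
  [Preadditive C] [Linear ℚ C] [MonoidalPreadditive C] [MonoidalLinear ℚ C]

/-- If the tensor product is killed then the tensor product of (anti)symmetrizers vanishes. -/
lemma zip_kill {η θ : ℚ} (hη : η * η = 1) (hθ : θ * θ = 1) (A B : C) (n : ℕ)
    (h : asym (η * θ) (A ⊗ B) n = 0) : asym η A n ⊗ₘ asym θ B n = 0 := by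
  have h1 : (η * θ) * (η * θ) = 1 := by
    linear_combination (θ * θ) * hη + hθ
  have h2 : zip A B n ≫ (asym η A n ⊗ₘ asym θ B n) = 0 := by
    apply (kills_iff h1 (A ⊗ B) n).mpr h
    intro s hs
    obtain ⟨s', s'', h3, h4, h5⟩ := zip_swap A B hs
    rw [← Category.assoc, h5, Category.assoc, tensorHom_comp_tensorHom, (swap_asym hη A h3).1,
      (swap_asym hθ B h4).1]
    simp only [MonoidalCategory.tensorHom_def, MonoidalLinear.smul_whiskerRight,
      MonoidalLinear.whiskerLeft_smul, Linear.smul_comp, Linear.comp_smul, smul_smul,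
      mul_comm θ η]
  obtain ⟨u, hu⟩ := zip_inv A B n
  have h3 := congrArg (fun z => u ≫ z) h2
  simpa [reassoc_of% hu] using h3

variable [RightRigidCategory C]

lemma tensor_ptr {U Q X : C} (h : U ⟶ U) (k : Q ⊗ X ⟶ Q ⊗ X) (h0 : h ⊗ₘ k = 0) :
    h ⊗ₘ ptr k = 0 := by
  have h1 : h ⊗ₘ ptr k = ptr ((α_ U Q X).hom ≫ (h ⊗ₘ k) ≫ (α_ U Q X).inv) := by
    rw [MonoidalCategory.tensorHom_def, ← ptr_assoc, ← ptr_comp_left,
      MonoidalCategory.tensorHom_def]
    congr 1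
    simp
  rw [h1, h0]
  simp only [zero_comp, comp_zero]
  exact (ptrL _ _).map_zero

/-- Contracting the second factor. -/
lemma tensor_ff {U X : C} (h : U ⟶ U) (n : ℕ) (k : tp X n ⟶ tp X n) (h0 : h ⊗ₘ k = 0) :
    h ⊗ₘ ff X n k = 0 := by
  induction n with
  | zero => exact h0
  | succ n ih => exact ih (ptr k) (tensor_ptr h k h0)

/-- Descent along a tensor factor with nonvanishing (anti)symmetrized dimension. -/
theorem kill_descent (hU : UnitQ C) {η θ : ℚ} (hη : η * η = 1) (hθ : θ * θ = 1) (A B : C) (n : ℕ)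
    (h : asym (η * θ) (A ⊗ B) n = 0) (hB : Pool.Agent.TH829.Kim.F (trq hU B) θ n (fun _ => 1) ≠ 0) :
    asym η A n = 0 := by
  have h1 := tensor_ff (asym η A n) n (gg θ n (fun _ : Fin n => (1 : End B))) (by
    have h2 : gg θ n (fun _ : Fin n => (1 : End B)) = (n.factorial : ℚ) • asym θ B n := by
      rw [gg]
      have h3 : Dn n (fun _ : Fin n => 𝟙 B) = 𝟙 _ := by
        clear hB h
        induction n with
        | zero => rfl
        | succ n ih => rw [Dn_succ, ih, id_tensorHom_id]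
      have h4 : Dn n (fun i : Fin n => ((fun _ : Fin n => (1 : End B)) i : B ⟶ B)) = 𝟙 _ := h3
      rw [h4, Category.id_comp]
    rw [h2, MonoidalCategory.tensorHom_def, MonoidalLinear.whiskerLeft_smul, Linear.comp_smul,
      ← MonoidalCategory.tensorHom_def, zip_kill hη hθ A B n h, smul_zero])
  rw [ff_gg hU hθ, MonoidalCategory.tensorHom_def, MonoidalLinear.whiskerLeft_smul,
    Linear.comp_smul] at h1
  have h2 := congrArg (fun z => (Pool.Agent.TH829.Kim.F (trq hU B) θ n (fun _ => 1))⁻¹ • z) h1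
  simp only [smul_smul, inv_mul_cancel₀ hB, one_smul, smul_zero, whiskerLeft_id,
    Category.comp_id] at h2
  have h3 : asym η A n = (ρ_ _).inv ≫ (asym η A n ▷ 𝟙_ C) ≫ (ρ_ _).hom := by simp
  rw [h3, h2]
  simp

end

end Pool.Agent.Y112.KD
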